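import Pool.Agent.Lib.MP_9bd952_ag.Defs
import Pool.Agent.Lib.MP_a47f92_an.G.Osg

/-! Local charts of a complex submanifold. -/

namespace Pool.Agent.Lib.MP_9bd952_ag

open Set Metric Filter Topology Asymptotics

theorem exists_chart {m : ℕ} {Y : Set (Fin m → ℂ)} (hY : Smooth Y) {p : Fin m → ℂ} (hp : p ∈ Y) :
    ∃ (K : Submodule ℂ (Fin m → ℂ)) (ψ : K → Fin m → ℂ) (π : (Fin m → ℂ) → K) (B : Set K)
      (W : Set (Fin m → ℂ)), IsOpen W ∧ p ∈ W ∧ IsOpen B ∧ Convex ℝ B ∧ DifferentiableOn ℂ ψ B ∧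
        ContinuousOn π W ∧ MapsTo ψ B (Y ∩ W) ∧ (∀ y ∈ Y ∩ W, π y ∈ B ∧ ψ (π y) = y) ∧
          ∀ k ∈ B, π (ψ k) = k := by
  obtain ⟨U, hU, hpU, k, F, hF, hs, hYU⟩ := hY p hp
  have mem : ∀ y ∈ U, y ∈ Y ↔ F y = 0 := fun y hy =>
    ⟨fun h => (hYU.subset ⟨h, hy⟩).2, fun h => (hYU.superset ⟨hy, h⟩).1⟩
  have hC : ContDiffAt ℂ 1 F p :=
    (MP_a47f92_an.Osg.analyticOnNhd_of_differentiableOn hU hF p hpU).contDiffAt
  obtain ⟨P, hP⟩ := Submodule.ClosedComplemented.of_finiteDimensional (fderiv ℂ F p).ker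
  have hg : ContDiffAt ℂ 1 (fun x => (F x, P x)) p := hC.prodMk P.contDiff.contDiffAt
  have hg' : HasFDerivAt (fun x => (F x, P x))
      ((fderiv ℂ F p).equivProdOfSurjectiveOfIsCompl P (LinearMap.range_eq_top.2 (hs p hpU))
        (LinearMap.range_eq_of_proj hP) (LinearMap.isCompl_of_proj hP) :
          (Fin m → ℂ) →L[ℂ] (Fin k → ℂ) × (fderiv ℂ F p).ker) p :=
    (hF.differentiableAt (hU.mem_nhds hpU)).hasFDerivAt.prodMk P.hasFDerivAt
  obtain ⟨h, hc, hps, hi⟩ : ∃ h : OpenPartialHomeomorph (Fin m → ℂ)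
      ((Fin k → ℂ) × (fderiv ℂ F p).ker), (∀ x, h x = (F x, P x)) ∧ p ∈ h.source ∧
        ContDiffAt ℂ 1 h.symm (F p, P p) :=
    ⟨hg.toOpenPartialHomeomorph _ hg' one_ne_zero, fun _ => rfl,
      hg.mem_toOpenPartialHomeomorph_source hg' one_ne_zero, hg.to_localInverse hg' one_ne_zero⟩
  have h0 : h p = (0, P p) := by rw [hc, (mem p hpU).1 hp]
  rw [(mem p hpU).1 hp] at hi
  have ev : ∀ᶠ z in 𝓝 ((0 : Fin k → ℂ), P p),
      z ∈ h.target ∧ h.symm z ∈ U ∧ DifferentiableAt ℂ h.symm z := by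
    refine Eventually.and (h.open_target.mem_nhds (h0 ▸ h.map_source hps))
      (Eventually.and (hi.continuousAt (hU.mem_nhds ?_)) ?_)
    · rw [← h0, h.left_inv hps]
      exact hpU
    · exact (hi.eventually (by simp)).mono fun z hz => hz.differentiableAt one_ne_zero
  obtain ⟨r, hr, hB⟩ := Metric.mem_nhds_iff.1
    ((Continuous.prodMk_right (0 : Fin k → ℂ)).continuousAt.eventually ev)
  have ri : ∀ z ∈ ball (P p) r, F (h.symm (0, z)) = 0 ∧ P (h.symm (0, z)) = z := fun z hz =>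
    Prod.ext_iff.1 ((hc _).symm.trans (h.right_inv (hB hz).1))
  refine ⟨_, fun z => h.symm (0, z), P, ball (P p) r, h.source ∩ U ∩ P ⁻¹' ball (P p) r,
    (h.open_source.inter hU).inter (isOpen_ball.preimage P.continuous),
    ⟨⟨hps, hpU⟩, mem_ball_self hr⟩, isOpen_ball, convex_ball _ _, fun z hz => ?_,
    P.continuous.continuousOn, fun z hz => ?_, fun y hy => ⟨hy.2.2, ?_⟩, fun z hz => (ri z hz).2⟩
  · exact ((hB hz).2.2.comp z
      ((differentiableAt_const _).prodMk differentiableAt_id)).differentiableWithinAt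
  · refine ⟨(mem _ (hB hz).2.1).2 (ri z hz).1, ⟨h.map_target (hB hz).1, (hB hz).2.1⟩, ?_⟩
    rw [mem_preimage, (ri z hz).2]
    exact hz
  · have e : h y = (0, P y) := by rw [hc, (mem y hy.2.1.2).1 hy.1]
    show h.symm (0, P y) = y
    rw [← e, h.left_inv hy.2.1.1]

end Pool.Agent.Lib.MP_9bd952_ag
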