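import Mathlib

namespace Pool.Agent.Lib.MP_9bd952_ag

open Set Metric Filter Topology Asymptotics

/-- The four local types of a solution. -/
def Typ {V : Type} [AddCommGroup V] [Module ℚ V] (l : V →ₗ[ℚ] ℚ) (F : ℕ → Submodule ℚ V)
    (s : Fin 3 → V) : Prop :=
  (∀ i, l (s i) = 0) ∨ ∃ (i : Fin 3) (n : ℕ), l (s i) = 0 ∧ l (s (i + 2)) = n + 1 ∧
    s i ∈ F n ∧ s i ∉ F (n + 1)

section

open Module

set_option linter.unusedSectionVars false

variable {V P : Type} [AddCommGroup V] [Module ℚ V] [FiniteDimensional ℚ V]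

/-- The weight of a subspace of differences. -/
noncomputable def Comb_x (D : Submodule ℚ (Fin 3 → V)) : ℝ := (1797 / 1000) ^ finrank ℚ D

/-- The weight of a subspace of coordinates. -/
noncomputable def Comb_z (U : Submodule ℚ V) : ℝ := (1256 / 1000) ^ finrank ℚ U

theorem Comb_x_one (D : Submodule ℚ (Fin 3 → V)) : 1 ≤ Comb_x D := one_le_pow₀ (by norm_num)

theorem Comb_z_one (U : Submodule ℚ V) : 1 ≤ Comb_z U := one_le_pow₀ (by norm_num)

theorem Comb_x_le {D E : Submodule ℚ (Fin 3 → V)} (h : D ≤ E) : Comb_x D ≤ Comb_x E :=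
  pow_le_pow_right₀ (by norm_num) (Submodule.finrank_mono h)

theorem Comb_z_le {D E : Submodule ℚ V} (h : D ≤ E) : Comb_z D ≤ Comb_z E :=
  pow_le_pow_right₀ (by norm_num) (Submodule.finrank_mono h)

theorem Comb_x_lt {D E : Submodule ℚ (Fin 3 → V)} (h : D < E) :
    Comb_x D * (1797 / 1000) ≤ Comb_x E := by
  rw [Comb_x, ← pow_succ]
  exact pow_le_pow_right₀ (by norm_num) (Submodule.finrank_lt_finrank_of_lt h)

theorem Comb_z_lt {D E : Submodule ℚ V} (h : D < E) : Comb_z D * (1256 / 1000) ≤ Comb_z E := by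
  rw [Comb_z, ← pow_succ]
  exact pow_le_pow_right₀ (by norm_num) (Submodule.finrank_lt_finrank_of_lt h)

/-- The product of the three coordinate weights. -/
noncomputable def Comb_u (U : Fin 3 → Submodule ℚ V) : ℝ := ∏ i, Comb_z (U i)

theorem Comb_u_one (U : Fin 3 → Submodule ℚ V) : 1 ≤ Comb_u U :=
  Finset.one_le_prod fun _ _ => Comb_z_one _

theorem Comb_u_le {U U' : Fin 3 → Submodule ℚ V} (J : Finset (Fin 3)) (h : ∀ i, U' i ≤ U i)
    (hJ : ∀ i ∈ J, U' i < U i) : Comb_u U' * (1256 / 1000) ^ J.card ≤ Comb_u U := by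
  have e : ((1256 / 1000 : ℝ)) ^ J.card = ∏ i : Fin 3, if i ∈ J then (1256 / 1000 : ℝ) else 1 := by
    rw [Finset.prod_ite_mem, Finset.univ_inter, Finset.prod_const]
  rw [e, Comb_u, ← Finset.prod_mul_distrib]
  refine Finset.prod_le_prod (fun i _ => ?_) fun i _ => ?_
  · have := Comb_z_one (U' i)
    split_ifs <;> positivity
  · split_ifs with hi
    · exact Comb_z_lt (hJ i hi)
    · rw [mul_one]; exact Comb_z_le (h i)

variable (res : P → V →ₗ[ℚ] ℚ) (F : P → ℕ → Submodule ℚ V)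

/-- Solutions. -/
def Comb_Sol (s : Fin 3 → V) : Prop := s 0 + s 1 + s 2 = 0 ∧ ∀ p, Typ (res p) (F p) s

/-- The solution has type `i` and multiplicity `n + 1` at `p`. -/
def Comb_T (p : P) (i : Fin 3) (n : ℕ) (s : Fin 3 → V) : Prop :=
  res p (s i) = 0 ∧ res p (s (i + 2)) = n + 1 ∧ s i ∈ F p n ∧ s i ∉ F p (n + 1)

/-- The kernel of the residue of one coordinate. -/
def Comb_K (p : P) (j : Fin 3) : Submodule ℚ (Fin 3 → V) :=
  LinearMap.ker ((res p).comp (LinearMap.proj j))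

/-- The main claim for a space of differences. -/
def Comb_M (D : Submodule ℚ (Fin 3 → V)) : Prop :=
  ∀ (U : Fin 3 → Submodule ℚ V) (S : Finset (Fin 3 → V)), (∀ s ∈ S, Comb_Sol res F s) →
    (∀ s ∈ S, ∀ t ∈ S, s - t ∈ D) → (∀ s ∈ S, ∀ t ∈ S, ∀ j, s j - t j ∈ U j) →
      (S.card : ℝ) ≤ Comb_x D * Comb_u U

/-- The claim for solutions of one type at one place. -/
def Comb_H (D : Submodule ℚ (Fin 3 → V)) : Prop :=
  ∀ (p : P) (i : Fin 3) (U : Fin 3 → Submodule ℚ V) (S : Finset (Fin 3 → V)),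
    (∀ s ∈ S, Comb_Sol res F s) → (∀ s ∈ S, ∃ n, Comb_T res F p i n s) →
    (∀ s ∈ S, ∀ t ∈ S, s - t ∈ D) →
    (∀ s ∈ S, ∀ t ∈ S, ∀ j, res p (s j) = res p (t j) → s j - t j ∈ U j) →
      (S.card : ℝ) ≤ Comb_x D * Comb_u U

variable {res F}

theorem Comb_K_mem {p : P} {j : Fin 3} {s t : Fin 3 → V} :
    s - t ∈ Comb_K res p j ↔ res p (s j) = res p (t j) := by
  simp [Comb_K, sub_eq_zero]

theorem Comb_sum {s : Fin 3 → V} (h : s 0 + s 1 + s 2 = 0) (l : V →ₗ[ℚ] ℚ) (i : Fin 3) :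
    l (s i) + l (s (i + 1)) + l (s (i + 2)) = 0 := by
  have := congrArg l h
  simp only [map_add, map_zero] at this
  fin_cases i <;> simp <;> linarith

theorem Comb_cases (i j : Fin 3) : j = i ∨ j = i + 1 ∨ j = i + 2 := by
  revert i j; decide

theorem Comb_fin (i : Fin 3) : i + 1 ≠ i + 2 ∧ i + 1 + 2 = i ∧ i + 2 + 2 = i + 1 := by
  revert i; decide

theorem Comb_H_step (hF : ∀ p, Antitone (F p)) {D : Submodule ℚ (Fin 3 → V)}
    (hH : ∀ E < D, Comb_H res F E) (p : P) (i : Fin 3)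
    (hM : Comb_M res F (D ⊓ Comb_K res p (i + 2))) (U : Fin 3 → Submodule ℚ V)
    (S : Finset (Fin 3 → V)) (hS : ∀ s ∈ S, Comb_Sol res F s)
    (hT : ∀ s ∈ S, ∃ n, Comb_T res F p i n s) (hD : ∀ s ∈ S, ∀ t ∈ S, s - t ∈ D)
    (hU : ∀ s ∈ S, ∀ t ∈ S, ∀ j, res p (s j) = res p (t j) → s j - t j ∈ U j) :
    (S.card : ℝ) ≤ Comb_x D * Comb_u U := by
  classical
  rcases S.eq_empty_or_nonempty with rfl | hne
  · have := Comb_x_one D; have := Comb_u_one U
    simp only [Finset.card_empty, Nat.cast_zero]; positivity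
  have hex : ∃ n, ∃ s ∈ S, Comb_T res F p i n s := by
    obtain ⟨s, hs⟩ := hne
    obtain ⟨n, hn⟩ := hT s hs
    exact ⟨n, s, hs, hn⟩
  obtain ⟨s0, hs0, h0⟩ := Nat.find_spec hex
  set n0 := Nat.find hex with hn0
  let A := S.filter (Comb_T res F p i n0)
  let B := S.filter fun s => ¬ Comb_T res F p i n0 s
  have hAB : (S.card : ℝ) = A.card + B.card := by
    exact_mod_cast (Finset.card_filter_add_card_filter_not _).symm
  let E : Submodule ℚ (Fin 3 → V) := D ⊓ Comb_K res p (i + 2)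
  have hA : (A.card : ℝ) ≤ Comb_x E * Comb_u U := by
    refine hM U A (fun s hs => hS s (Finset.mem_filter.1 hs).1) ?_ ?_
    · intro s hs t ht
      obtain ⟨s1, s2⟩ := Finset.mem_filter.1 hs
      obtain ⟨t1, t2⟩ := Finset.mem_filter.1 ht
      exact ⟨hD s s1 t t1, Comb_K_mem.2 (by rw [s2.2.1, t2.2.1])⟩
    · intro s hs t ht j
      obtain ⟨s1, s2⟩ := Finset.mem_filter.1 hs
      obtain ⟨t1, t2⟩ := Finset.mem_filter.1 ht
      refine hU s s1 t t1 j ?_
      have a := Comb_sum (hS s s1).1 (res p) i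
      have b := Comb_sum (hS t t1).1 (res p) i
      rcases Comb_cases i j with rfl | rfl | rfl
      · rw [s2.1, t2.1]
      · linarith [s2.1, t2.1, s2.2.1, t2.2.1]
      · rw [s2.2.1, t2.2.1]
  have hu := Comb_u_one U
  rcases B.eq_empty_or_nonempty with hB | ⟨s1, hs1⟩
  · rw [hAB, hB]
    have := Comb_x_le (show E ≤ D from inf_le_left)
    simp only [Finset.card_empty, Nat.cast_zero, add_zero]
    nlinarith
  have hBF : ∀ s ∈ B, s i ∈ F p (n0 + 1) ∧ res p (s i) = 0 ∧ res p (s (i + 2)) ≠ n0 + 1 := by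
    intro s hs
    obtain ⟨a, b⟩ := Finset.mem_filter.1 hs
    obtain ⟨n, hn⟩ := hT s a
    have h1 : n0 ≤ n := Nat.find_min' hex ⟨s, a, hn⟩
    have h2 : n0 ≠ n := fun e => b (e ▸ hn)
    refine ⟨hF p (by omega) hn.2.2.1, hn.1, ?_⟩
    rw [hn.2.1]
    exact fun e => h2 (by exact_mod_cast (add_right_cancel e).symm)
  have m1 := (Finset.mem_filter.1 hs1).1
  have w1 : s1 i - s0 i ∉ F p (n0 + 1) := fun h => h0.2.2.2 (by
    simpa using (F p (n0 + 1)).sub_mem (hBF s1 hs1).1 h)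
  let E' : Submodule ℚ (Fin 3 → V) := D ⊓ (F p (n0 + 1)).comap (LinearMap.proj i)
  let U' : Fin 3 → Submodule ℚ V := fun j => if j = i then U j ⊓ F p (n0 + 1) else U j
  have l1 : E < D := lt_of_le_of_ne inf_le_left fun e => (hBF s1 hs1).2.2 (by
    have : s1 - s0 ∈ E := e ▸ hD s1 m1 s0 hs0
    rw [Comb_K_mem.1 this.2, h0.2.1])
  have l2 : E' < D := lt_of_le_of_ne inf_le_left fun e => w1 (by
    have : s1 - s0 ∈ E' := e ▸ hD s1 m1 s0 hs0
    exact this.2)
  have l3 : Comb_u U' * (1256 / 1000) ^ ({i} : Finset (Fin 3)).card ≤ Comb_u U := by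
    refine Comb_u_le _ (fun j => ?_) fun j hj => ?_
    · simp only [U']; split_ifs
      exacts [inf_le_left, le_rfl]
    · obtain rfl := Finset.mem_singleton.1 hj
      simp only [U', if_true]
      refine lt_of_le_of_ne inf_le_left fun e => w1 ?_
      have : s1 j - s0 j ∈ U j ⊓ F p (n0 + 1) := by
        rw [e]; exact hU s1 m1 s0 hs0 j (by rw [(hBF s1 hs1).2.1, h0.1])
      exact this.2
  have hB : (B.card : ℝ) ≤ Comb_x E' * Comb_u U' := by
    refine hH E' l2 p i U' B (fun s hs => hS s (Finset.mem_filter.1 hs).1)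
      (fun s hs => hT s (Finset.mem_filter.1 hs).1) (fun s hs t ht => ?_) fun s hs t ht j e => ?_
    · exact ⟨hD s (Finset.mem_filter.1 hs).1 t (Finset.mem_filter.1 ht).1,
        (F p (n0 + 1)).sub_mem (hBF s hs).1 (hBF t ht).1⟩
    · have := hU s (Finset.mem_filter.1 hs).1 t (Finset.mem_filter.1 ht).1 j e
      simp only [U']
      split_ifs with hj
      · subst hj; exact ⟨this, (F p (n0 + 1)).sub_mem (hBF s hs).1 (hBF t ht).1⟩
      · exact this
  have a1 := Comb_x_lt l1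
  have a2 := Comb_x_lt l2
  have a3 := Comb_x_one E
  have a4 := Comb_x_one E'
  have a5 := Comb_u_one U'
  rw [Finset.card_singleton, pow_one] at l3
  have b1 : Comb_x E * Comb_u U * (1797 / 1000) ≤ Comb_x D * Comb_u U := by nlinarith
  have b2 : Comb_x E' * Comb_u U' * (1797 / 1000) * (1256 / 1000) ≤ Comb_x D * Comb_u U := by
    have := mul_le_mul a2 l3 (by positivity) (by linarith)
    nlinarith
  rw [hAB]
  nlinarith

theorem Comb_M_step (hF : ∀ p, Antitone (F p)) (hinj : ∀ v, (∀ p, res p v = 0) → v = 0)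
    {D : Submodule ℚ (Fin 3 → V)} (hM : ∀ E < D, Comb_M res F E)
    (hH : ∀ E < D, Comb_H res F E) : Comb_M res F D := by
  classical
  intro U S hS hD hU
  have hX := Comb_x_one D
  have hu := Comb_u_one U
  by_cases h1 : S.card ≤ 1
  · have : (S.card : ℝ) ≤ 1 := by exact_mod_cast h1
    nlinarith
  obtain ⟨a, ha, b, hb, hab⟩ := Finset.one_lt_card.1 (not_le.1 h1)
  obtain ⟨p, j0, hj0⟩ : ∃ p j, res p (a j) ≠ res p (b j) := by
    by_contra h
    push Not at h
    exact hab (funext fun j => sub_eq_zero.1 (hinj _ fun p => by rw [map_sub, h p j, sub_self]))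
  let N : Fin 3 → Prop := fun j => ∃ s ∈ S, ∃ t ∈ S, res p (s j) ≠ res p (t j)
  let U' : Fin 3 → Submodule ℚ V := fun j => U j ⊓ LinearMap.ker (res p)
  let Z := S.filter fun s => ∀ i, res p (s i) = 0
  let T : Fin 3 → Finset (Fin 3 → V) := fun i => S.filter fun s => ∃ n, Comb_T res F p i n s
  have hu' := Comb_u_one U'
  have hND : ∀ j, N j → D ⊓ Comb_K res p j < D := by
    rintro j ⟨s, hs, t, ht, e⟩
    refine lt_of_le_of_ne inf_le_left fun h => e (Comb_K_mem.1 ?_)
    have : s - t ∈ D ⊓ Comb_K res p j := by rw [h]; exact hD s hs t ht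
    exact this.2
  have hNU : ∀ j, N j → U' j < U j := by
    rintro j ⟨s, hs, t, ht, e⟩
    refine lt_of_le_of_ne inf_le_left fun h => e ?_
    have : s j - t j ∈ U' j := by rw [h]; exact hU s hs t ht j
    simpa [sub_eq_zero] using this.2
  have hU' : ∀ s ∈ S, ∀ t ∈ S, ∀ j, res p (s j) = res p (t j) → s j - t j ∈ U' j :=
    fun s hs t ht j e => ⟨hU s hs t ht j, by simp [e]⟩
  have cov : ∀ i, (S.card : ℝ) ≤ Z.card + (T i).card + (T (i + 1)).card + (T (i + 2)).card := by
    intro i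
    have : S ⊆ Z ∪ T i ∪ T (i + 1) ∪ T (i + 2) := fun s hs => by
      simp only [Finset.mem_union]
      rcases (hS s hs).2 p with h | ⟨k, n, h⟩
      · exact Or.inl (Or.inl (Or.inl (Finset.mem_filter.2 ⟨hs, h⟩)))
      · have hk : s ∈ T k := Finset.mem_filter.2 ⟨hs, n, h⟩
        rcases Comb_cases i k with rfl | rfl | rfl
        exacts [Or.inl (Or.inl (Or.inr hk)), Or.inl (Or.inr hk), Or.inr hk]
    have c1 := Finset.card_le_card this
    have c2 := Finset.card_union_le (Z ∪ T i ∪ T (i + 1)) (T (i + 2))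
    have c3 := Finset.card_union_le (Z ∪ T i) (T (i + 1))
    have c4 := Finset.card_union_le Z (T i)
    exact_mod_cast (by omega : S.card ≤ Z.card + (T i).card + (T (i + 1)).card + (T (i + 2)).card)
  have bZ : ∀ i j, N i → (Z.card : ℝ) ≤
      Comb_x (D ⊓ Comb_K res p i ⊓ Comb_K res p j) * Comb_u U' := fun i j hi => by
    refine hM _ (lt_of_le_of_lt inf_le_left (hND i hi)) U' Z
      (fun s hs => hS s (Finset.mem_filter.1 hs).1) (fun s hs t ht => ?_) fun s hs t ht k => ?_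
    all_goals
      obtain ⟨s1, s2⟩ := Finset.mem_filter.1 hs
      obtain ⟨t1, t2⟩ := Finset.mem_filter.1 ht
    · exact ⟨⟨hD s s1 t t1, Comb_K_mem.2 (by rw [s2, t2])⟩, Comb_K_mem.2 (by rw [s2, t2])⟩
    · exact hU' s s1 t t1 k (by rw [s2, t2])
  have bZ1 : ∀ i, N i → (Z.card : ℝ) * (1797 / 1000) ≤ Comb_x D * Comb_u U' := fun i hi => by
    have c1 := bZ i i hi
    have c2 := Comb_x_lt (lt_of_le_of_lt (inf_le_left (b := Comb_K res p i)) (hND i hi))
    nlinarith
  have bT : ∀ i, N i → ((T i).card : ℝ) * (1797 / 1000) ≤ Comb_x D * Comb_u U' := fun i hi => by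
    have c1 : ((T i).card : ℝ) ≤ Comb_x (D ⊓ Comb_K res p i) * Comb_u U' := by
      refine hH _ (hND i hi) p i U' (T i) (fun s hs => hS s (Finset.mem_filter.1 hs).1)
        (fun s hs => (Finset.mem_filter.1 hs).2) (fun s hs t ht => ?_) fun s hs t ht =>
          hU' s (Finset.mem_filter.1 hs).1 t (Finset.mem_filter.1 ht).1
      obtain ⟨s1, n, s2⟩ := Finset.mem_filter.1 hs
      obtain ⟨t1, n', t2⟩ := Finset.mem_filter.1 ht
      exact ⟨hD s s1 t t1, Comb_K_mem.2 (by rw [s2.1, t2.1])⟩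
    have c2 := Comb_x_lt (hND i hi)
    nlinarith
  have z0 : ∀ {A : Finset (Fin 3 → V)}, (∀ s ∈ A, False) → (A.card : ℝ) = 0 := fun h => by
    rw [Finset.eq_empty_of_forall_notMem h]; simp
  by_cases hN : ∀ i, N i
  · have c0 := Comb_u_le Finset.univ (fun i => (hNU i (hN i)).le) fun i _ => hNU i (hN i)
    rw [Finset.card_univ, Fintype.card_fin] at c0
    have c1 : Comb_x D * Comb_u U' * (1256 / 1000) ^ 3 ≤ Comb_x D * Comb_u U := by nlinarith
    have c2 := cov 0
    have t0 := bT 0 (hN _)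
    have t1 := bT (0 + 1) (hN _)
    have t2 := bT (0 + 2) (hN _)
    have hpos : 0 ≤ Comb_x D * Comb_u U' := by positivity
    by_cases hz : (∃ s, s ∈ Z) ∧ ∃ i s, s ∈ T i
    · obtain ⟨⟨s0, hs0⟩, i, s, hs⟩ := hz
      obtain ⟨s1, n, s2⟩ := Finset.mem_filter.1 hs
      obtain ⟨t1, t2⟩ := Finset.mem_filter.1 hs0
      have l : D ⊓ Comb_K res p i ⊓ Comb_K res p (i + 2) < D ⊓ Comb_K res p i :=
        lt_of_le_of_ne inf_le_left fun h => by
          have : s - s0 ∈ D ⊓ Comb_K res p i ⊓ Comb_K res p (i + 2) := by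
            rw [h]; exact ⟨hD s s1 s0 t1, Comb_K_mem.2 (by rw [s2.1, t2])⟩
          have := Comb_K_mem.1 this.2
          rw [s2.2.1, t2] at this
          exact absurd this (by positivity)
      have d1 := bZ i (i + 2) (hN i)
      have d2 := Comb_x_lt l
      have d3 := Comb_x_lt (hND i (hN i))
      have d4 : (Z.card : ℝ) * (1797 / 1000) ^ 2 ≤ Comb_x D * Comb_u U' := by nlinarith
      nlinarith
    · rcases not_and_or.1 hz with h | h
      · have := z0 (A := Z) fun s hs => h ⟨s, hs⟩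
        nlinarith
      · have e0 := z0 (A := T 0) fun s hs => h ⟨_, s, hs⟩
        have e1 := z0 (A := T (0 + 1)) fun s hs => h ⟨_, s, hs⟩
        have e2 := z0 (A := T (0 + 2)) fun s hs => h ⟨_, s, hs⟩
        have := bZ1 0 (hN 0)
        nlinarith
  · obtain ⟨i, hi⟩ := not_forall.1 hN
    have hc : ∀ s ∈ S, ∀ t ∈ S, res p (s i) = res p (t i) := fun s hs t ht =>
      by_contra fun h => hi ⟨s, hs, t, ht, h⟩
    have sa := Comb_sum (hS a ha).1 (res p) i
    have sb := Comb_sum (hS b hb).1 (res p) i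
    have hab := hc a ha b hb
    have n12 : N (i + 1) ∧ N (i + 2) := by
      rcases Comb_cases i j0 with rfl | rfl | rfl
      · exact absurd hab hj0
      · exact ⟨⟨a, ha, b, hb, hj0⟩, a, ha, b, hb, fun e => hj0 (by linarith)⟩
      · exact ⟨⟨a, ha, b, hb, fun e => hj0 (by linarith)⟩, a, ha, b, hb, hj0⟩
    have c0 := Comb_u_le (U := U) (U' := U') {i + 1, i + 2} (fun i => inf_le_left) fun j hj => by
      rcases Finset.mem_insert.1 hj with rfl | hj
      · exact hNU _ n12.1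
      · rw [Finset.mem_singleton.1 hj]; exact hNU _ n12.2
    rw [Finset.card_pair (Comb_fin i).1] at c0
    have c1 : Comb_x D * Comb_u U' * (1256 / 1000) ^ 2 ≤ Comb_x D * Comb_u U := by nlinarith
    have c2 := cov i
    have hpos : 0 ≤ Comb_x D * Comb_u U' := by positivity
    by_cases hk : res p (a i) = 0
    · have e1 := z0 (A := T (i + 1)) fun s hs => by
        obtain ⟨s1, n, s2⟩ := Finset.mem_filter.1 hs
        have := s2.2.1
        rw [(Comb_fin i).2.1, hc s s1 a ha, hk] at this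
        exact absurd this.symm (by positivity)
      have e2 := z0 (A := T (i + 2)) fun s hs => by
        obtain ⟨s1, n, s2⟩ := Finset.mem_filter.1 hs
        have h3 := s2.2.1
        have h4 := Comb_sum (hS s s1).1 (res p) i
        rw [(Comb_fin i).2.2] at h3
        rw [hc s s1 a ha, hk, h3, s2.1] at h4
        exact absurd h4 (by positivity)
      have d1 := bZ1 _ n12.2
      have d2 := Comb_H_step hF hH p i (hM _ (hND _ n12.2)) U' (T i)
        (fun s hs => hS s (Finset.mem_filter.1 hs).1) (fun s hs => (Finset.mem_filter.1 hs).2)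
        (fun s hs t ht => hD s (Finset.mem_filter.1 hs).1 t (Finset.mem_filter.1 ht).1)
        fun s hs t ht => hU' s (Finset.mem_filter.1 hs).1 t (Finset.mem_filter.1 ht).1
      nlinarith
    · have e1 := z0 (A := Z) fun s hs => hk (by
        obtain ⟨s1, s2⟩ := Finset.mem_filter.1 hs
        rw [hc a ha s s1, s2])
      have e2 := z0 (A := T i) fun s hs => hk (by
        obtain ⟨s1, n, s2⟩ := Finset.mem_filter.1 hs
        rw [hc a ha s s1, s2.1])
      have t1 := bT _ n12.1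
      have t2 := bT _ n12.2
      nlinarith

theorem Comb_all (hF : ∀ p, Antitone (F p)) (hinj : ∀ v, (∀ p, res p v = 0) → v = 0)
    (D : Submodule ℚ (Fin 3 → V)) : Comb_M res F D ∧ Comb_H res F D := by
  induction D using WellFoundedLT.induction with
  | ind D ih =>
    have m := Comb_M_step hF hinj (fun E h => (ih E h).1) fun E h => (ih E h).2
    refine ⟨m, fun p i => Comb_H_step hF (fun E h => (ih E h).2) p i ?_⟩
    rcases (inf_le_left : D ⊓ Comb_K res p (i + 2) ≤ D).lt_or_eq with h | h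
    · exact (ih _ h).1
    · rwa [h]

end

theorem count {V P : Type} [AddCommGroup V] [Module ℚ V] [FiniteDimensional ℚ V]
    (res : P → V →ₗ[ℚ] ℚ) (F : P → ℕ → Submodule ℚ V) (hF : ∀ p, Antitone (F p))
    (hinj : ∀ v, (∀ p, res p v = 0) → v = 0) (S : Finset (Fin 3 → V))
    (h0 : ∀ s ∈ S, s 0 + s 1 + s 2 = 0) (hS : ∀ s ∈ S, ∀ p, Typ (res p) (F p) s) :
    (S.card : ℝ) ≤ (32 / 5) ^ Module.finrank ℚ V := by
  let π : Fin 3 → (Fin 3 → V) →ₗ[ℚ] V := fun i => LinearMap.proj i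
  let σ : (Fin 3 → V) →ₗ[ℚ] V := π 0 + π 1 + π 2
  have h := (Comb_all hF hinj (LinearMap.ker σ)).1 (fun _ => ⊤) S
    (fun s hs => ⟨h0 s hs, hS s hs⟩) (fun s hs t ht => by
      have a := h0 s hs
      have b := h0 t ht
      simp only [σ, π, LinearMap.mem_ker, LinearMap.add_apply, LinearMap.proj_apply, Pi.sub_apply]
      rw [← sub_self (0 : V)]
      nth_rewrite 1 [← a]
      rw [← b]
      abel) fun _ _ _ _ _ => Submodule.mem_top
  have hs : LinearMap.range σ = ⊤ :=
    LinearMap.range_eq_top.2 fun v => ⟨![v, 0, 0], by simp [σ, π]⟩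
  have hr := LinearMap.finrank_range_add_finrank_ker σ
  have h3 : Module.finrank ℚ (Fin 3 → V) = 3 * Module.finrank ℚ V := by
    rw [Module.finrank_pi_fintype ℚ]; simp
  rw [hs, finrank_top, h3] at hr
  have hk : Module.finrank ℚ (LinearMap.ker σ) = 2 * Module.finrank ℚ V := by omega
  simp only [Comb_x, Comb_u, Comb_z, hk, finrank_top, Finset.prod_const, Finset.card_univ,
    Fintype.card_fin] at h
  rw [pow_mul, ← pow_mul _ _ 3, mul_comm _ 3, pow_mul, ← mul_pow] at h
  exact h.trans (pow_le_pow_left₀ (by positivity) (by norm_num) _)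

end Pool.Agent.Lib.MP_9bd952_ag
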