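import Mathlib

/-! Affine manifolds, holomorphic functions on them, punctured discs and local data at the
puncture. -/

namespace Pool.Agent.Lib.MP_9bd952_ag

open Set Metric Filter Topology Asymptotics

/-- The punctured unit disc. -/
def PD : Set ℂ := ball 0 1 \ {0}

variable {m : ℕ}

/-- Algebraic subsets. -/
def Alg (Y : Set (Fin m → ℂ)) : Prop :=
  ∃ S : Set (MvPolynomial (Fin m) ℂ), Y = {y | ∀ P ∈ S, MvPolynomial.eval y P = 0}

/-- Complex submanifolds. -/
def Smooth (Y : Set (Fin m → ℂ)) : Prop :=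
  ∀ p ∈ Y, ∃ U : Set (Fin m → ℂ), IsOpen U ∧ p ∈ U ∧
    ∃ (k : ℕ) (F : (Fin m → ℂ) → (Fin k → ℂ)), DifferentiableOn ℂ F U ∧
      (∀ x ∈ U, Function.Surjective ⇑(fderiv ℂ F x)) ∧ Y ∩ U = U ∩ F ⁻¹' {0}

/-- The restriction of `f` to `Y` is holomorphic. -/
def Hol (Y : Set (Fin m → ℂ)) (f : (Fin m → ℂ) → ℂ) : Prop :=
  ∀ p ∈ Y, ∃ U : Set (Fin m → ℂ), IsOpen U ∧ p ∈ U ∧
    ∃ h : (Fin m → ℂ) → ℂ, DifferentiableOn ℂ h U ∧ ∀ y ∈ Y, y ∈ U → h y = f y

/-- Holomorphic punctured discs in `Y`. -/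
def Disc (Y : Set (Fin m → ℂ)) (γ : ℂ → Fin m → ℂ) : Prop :=
  DifferentiableOn ℂ γ PD ∧ MapsTo γ PD Y

/-- Zero-free holomorphic functions on the punctured disc, meromorphic at the origin. -/
structure Mer (f : ℂ → ℂ) : Prop where
  diff : DifferentiableOn ℂ f PD
  ne : ∀ z ∈ PD, f z ≠ 0
  mer : MeromorphicAt f 0

/-- The order at the origin. -/
noncomputable def ord (f : ℂ → ℂ) : ℤ := (meromorphicOrderAt f 0).untop₀

/-- The logarithmic derivative on the punctured disc. -/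
noncomputable def ld (f : ℂ → ℂ) : ℂ → ℂ := PD.indicator (logDeriv f)

/-- Functions that vanish to order `j` at the origin. -/
def Fl (j : ℕ) : Submodule ℚ (ℂ → ℂ) where
  carrier := {φ | φ =O[𝓝[≠] 0] fun z : ℂ => z ^ j}
  add_mem' := fun h h' => h.add h'
  zero_mem' := isBigO_zero _ _
  smul_mem' := fun c _ h => h.const_smul_left c

/-- Zero-free holomorphic functions on `Y` that are meromorphic along all punctured discs. -/
structure Un (Y : Set (Fin m → ℂ)) (g : (Fin m → ℂ) → ℂ) : Prop where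
  hol : Hol Y g
  ne : ∀ y ∈ Y, g y ≠ 0
  mer : ∀ γ, Disc Y γ → MeromorphicAt (g ∘ γ) 0

/-- The space of local data along all discs. -/
abbrev Wsp (Y : Set (Fin m → ℂ)) : Type := ({γ // Disc Y γ} → ℂ → ℂ) × ({γ // Disc Y γ} → ℚ)

/-- Logarithmic derivatives and orders along all discs. -/
noncomputable def Phi (Y : Set (Fin m → ℂ)) (g : (Fin m → ℂ) → ℂ) : Wsp Y :=
  (fun γ => ld (g ∘ γ.1), fun γ => (ord (g ∘ γ.1) : ℚ))

/-- The rational span of the local data of all units. -/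
noncomputable def Vsp (Y : Set (Fin m → ℂ)) : Submodule ℚ (Wsp Y) :=
  Submodule.span ℚ (Phi Y '' {g | Un Y g})

theorem isOpen_PD : IsOpen PD := isOpen_ball.sdiff isClosed_singleton

theorem mem_PD {z : ℂ} : z ∈ PD ↔ ‖z‖ < 1 ∧ z ≠ 0 := by simp [PD]

theorem PD_mem : PD ∈ 𝓝[≠] (0 : ℂ) :=
  sdiff_mem_nhdsWithin_compl (ball_mem_nhds 0 one_pos) _

theorem Fl_anti : Antitone Fl := antitone_nat_of_succ_le fun j φ h => by
  refine IsBigO.trans h (IsBigO.of_bound 1 ?_)
  filter_upwards [PD_mem] with z hz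
  rw [norm_pow, norm_pow, pow_succ, mul_comm]
  exact mul_le_mul_of_nonneg_right (mem_PD.1 hz).1.le (by positivity)

variable {Y : Set (Fin m → ℂ)} {f g : (Fin m → ℂ) → ℂ}

theorem Hol.of_diff (h : Differentiable ℂ f) : Hol Y f :=
  fun _ _ => ⟨univ, isOpen_univ, mem_univ _, f, h.differentiableOn, fun _ _ _ => rfl⟩

theorem hol_const (c : ℂ) : Hol Y fun _ => c := Hol.of_diff (differentiable_const c)

theorem hol_poly (P : MvPolynomial (Fin m) ℂ) : Hol Y fun y => MvPolynomial.eval y P := by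
  refine Hol.of_diff ?_
  induction P using MvPolynomial.induction_on with
  | C a => simp
  | add p q hp hq => simp only [map_add]; exact hp.add hq
  | mul_X p i hp =>
    simp only [map_mul, MvPolynomial.eval_X]
    exact hp.mul (differentiable_apply i)

theorem Hol.congr (h : Hol Y f) (e : ∀ y ∈ Y, f y = g y) : Hol Y g := fun p hp => by
  obtain ⟨U, a, b, k, c, d⟩ := h p hp
  exact ⟨U, a, b, k, c, fun y hy hU => (d y hy hU).trans (e y hy)⟩

theorem Hol.mul (h : Hol Y f) (h' : Hol Y g) : Hol Y (f * g) := fun p hp => by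
  obtain ⟨U, a, b, k, c, d⟩ := h p hp
  obtain ⟨U', a', b', k', c', d'⟩ := h' p hp
  exact ⟨U ∩ U', a.inter a', ⟨b, b'⟩, k * k', (c.mono inter_subset_left).mul
    (c'.mono inter_subset_right), fun y hy hU => by simp [d y hy hU.1, d' y hy hU.2]⟩

theorem Hol.sub (h : Hol Y f) (h' : Hol Y g) : Hol Y (f - g) := fun p hp => by
  obtain ⟨U, a, b, k, c, d⟩ := h p hp
  obtain ⟨U', a', b', k', c', d'⟩ := h' p hp
  exact ⟨U ∩ U', a.inter a', ⟨b, b'⟩, k - k', (c.mono inter_subset_left).sub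
    (c'.mono inter_subset_right), fun y hy hU => by simp [d y hy hU.1, d' y hy hU.2]⟩

theorem Hol.inv (h : Hol Y f) (h0 : ∀ y ∈ Y, f y ≠ 0) : Hol Y f⁻¹ := fun p hp => by
  obtain ⟨U, a, b, k, c, d⟩ := h p hp
  refine ⟨U ∩ k ⁻¹' {0}ᶜ, c.continuousOn.isOpen_inter_preimage a isOpen_compl_singleton,
    ⟨b, by simpa [d p hp b] using h0 p hp⟩, k⁻¹,
    (c.mono inter_subset_left).inv fun x hx => hx.2, fun y hy hU => by simp [d y hy hU.1]⟩

theorem Hol.continuousOn (h : Hol Y f) : ContinuousOn f Y := fun p hp => by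
  obtain ⟨U, a, b, k, c, d⟩ := h p hp
  refine ((c.continuousOn.continuousAt (a.mem_nhds b)).continuousWithinAt).congr_of_eventuallyEq
    ?_ (d p hp b).symm
  filter_upwards [self_mem_nhdsWithin, nhdsWithin_le_nhds (a.mem_nhds b)] with y hy hU
  exact (d y hy hU).symm

theorem Hol.comp {E : Type} [NormedAddCommGroup E] [NormedSpace ℂ E] (h : Hol Y f)
    {γ : E → Fin m → ℂ} {B : Set E} (hγ : DifferentiableOn ℂ γ B) (hm : MapsTo γ B Y) :
    DifferentiableOn ℂ (f ∘ γ) B := fun z hz => by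
  obtain ⟨U, a, b, k, c, d⟩ := h _ (hm hz)
  refine ((c.differentiableAt (a.mem_nhds b)).comp_differentiableWithinAt z
    (hγ z hz)).congr_of_eventuallyEq ?_ (d _ (hm hz) b).symm
  filter_upwards [self_mem_nhdsWithin, (hγ z hz).continuousWithinAt (a.mem_nhds b)] with w hw hU
  exact (d _ (hm hw) hU).symm

theorem Un.mer' (h : Un Y g) {γ : ℂ → Fin m → ℂ} (hγ : Disc Y γ) : Mer (g ∘ γ) :=
  ⟨h.hol.comp hγ.1 hγ.2, fun _ hz => h.ne _ (hγ.2 hz), h.mer γ hγ⟩

end Pool.Agent.Lib.MP_9bd952_ag
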