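import Pool.Agent.Lib.MP_9bd952_ag.Chart

namespace Pool.Agent.Lib.MP_9bd952_ag

open Set Metric Filter Topology Asymptotics

variable {m : ℕ} {Y : Set (Fin m → ℂ)}

theorem ident_loc (hY : Smooth Y) {f : (Fin m → ℂ) → ℂ} (hf : Hol Y f) {p : Fin m → ℂ}
    (hp : p ∈ Y) : ∃ W, IsOpen W ∧ p ∈ W ∧ ∀ q ∈ Y ∩ W, (∀ᶠ z in 𝓝 q, z ∈ Y → f z = 0) →
      ∀ y ∈ Y ∩ W, f y = 0 := by
  obtain ⟨K, ψ, π, B, W, hW, pW, hB, cB, dψ, -, mψ, h1, -⟩ := exists_chart hY hp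
  refine ⟨W, hW, pW, fun q hq h y hy => ?_⟩
  have ha := Pool.Agent.Lib.MP_a47f92_an.Osg.analyticOnNhd_of_differentiableOn hB
    (hf.comp dψ fun k hk => (mψ hk).1)
  have hB' := hB.mem_nhds (h1 q hq).1
  have ht : Tendsto ψ (𝓝 (π q)) (𝓝 q) := by
    have := (dψ.continuousOn.continuousAt hB').tendsto
    rwa [(h1 q hq).2] at this
  have hz : f ∘ ψ =ᶠ[𝓝 (π q)] 0 := by
    filter_upwards [ht.eventually h, hB'] with k h2 hk
    exact h2 (mψ hk).1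
  have := ha.eqOn_zero_of_preconnected_of_eventuallyEq_zero cB.isPreconnected (h1 q hq).1 hz
    (h1 y hy).1
  rwa [Function.comp_apply, (h1 y hy).2] at this

/-- The identity theorem. -/
theorem ident (hY : Smooth Y) (hc : IsConnected Y) {f : (Fin m → ℂ) → ℂ} (hf : Hol Y f)
    {U : Set (Fin m → ℂ)} (hU : IsOpen U) (hne : (Y ∩ U).Nonempty) (h0 : ∀ y ∈ Y ∩ U, f y = 0) :
    ∀ y ∈ Y, f y = 0 := by
  have := isPreconnected_iff_preconnectedSpace.1 hc.isPreconnected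
  have hZ : IsClopen ((↑) ⁻¹' {x | ∀ᶠ z in 𝓝 x, z ∈ Y → f z = 0} : Set Y) := by
    refine ⟨isClosed_of_closure_subset fun p hp => ?_,
      isOpen_setOfPred_eventually_nhds.preimage continuous_subtype_val⟩
    obtain ⟨W, hW, pW, h⟩ := ident_loc hY hf p.2
    obtain ⟨q, h1, h2⟩ := mem_closure_iff.1 hp _ (hW.preimage continuous_subtype_val) pW
    filter_upwards [hW.mem_nhds pW] with z hz hz'
    exact h q ⟨q.2, h1⟩ h2 z ⟨hz', hz⟩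
  obtain ⟨q, hq⟩ := hne
  have h1 := hZ.eq_univ ⟨⟨q, hq.1⟩, by
    filter_upwards [hU.mem_nhds hq.2] with z hz hz'
    exact h0 z ⟨hz', hz⟩⟩
  intro y hy
  have h2 : ∀ᶠ z in 𝓝 y, z ∈ Y → f z = 0 := eq_univ_iff_forall.1 h1 ⟨y, hy⟩
  exact h2.self_of_nhds hy

theorem locPath (hY : Smooth Y) : LocallyPathConnectedSpace Y := by
  refine ⟨fun p => ⟨fun s => ⟨fun hs => ?_, fun ⟨t, ht, h⟩ => mem_of_superset ht.1 h⟩⟩⟩
  obtain ⟨K, ψ, π, B, W, hW, pW, hB, -, dψ, cπ, mψ, h1, -⟩ := exists_chart hY p.2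
  obtain ⟨s', hs', hs⟩ := (mem_nhds_subtype Y p s).1 hs
  have hp := h1 p ⟨p.2, pW⟩
  have hB' := hB.mem_nhds hp.1
  have ht : Tendsto ψ (𝓝 (π p)) (𝓝 p) := by
    have := (dψ.continuousOn.continuousAt hB').tendsto
    rwa [hp.2] at this
  obtain ⟨r, hr, h⟩ := Metric.mem_nhds_iff.1 (inter_mem hB' (ht hs'))
  refine ⟨(↑) ⁻¹' (ψ '' ball (π p) r), ⟨?_, IsPathConnected.preimage_coe
    (((convex_ball _ r).isPathConnected (nonempty_ball.2 hr)).image'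
      (dψ.continuousOn.mono fun k hk => (h hk).1)) ?_⟩, ?_⟩
  · refine (mem_nhds_subtype Y p _).2 ⟨W ∩ π ⁻¹' ball (π p) r, inter_mem (hW.mem_nhds pW)
      (cπ.continuousAt (hW.mem_nhds pW) (ball_mem_nhds _ hr)), fun y hy => ?_⟩
    exact ⟨π y, hy.2, (h1 y ⟨y.2, hy.1⟩).2⟩
  · rintro _ ⟨k, hk, rfl⟩
    exact (mψ (h hk).1).1
  · rintro y ⟨k, hk, e⟩
    exact hs (show (y : Fin m → ℂ) ∈ s' from e ▸ (h hk).2)

end Pool.Agent.Lib.MP_9bd952_ag
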