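import Pool.Agent.Lib.MP_9bd952_ag.Defs
import Pool.Agent.Lib.MP_aa40d3_nt.GR.Puiseux

/-! Branches at infinity. -/

namespace Pool.Agent.Lib.MP_9bd952_ag

open Set Metric Filter Topology Asymptotics
open Polynomial Pool.Agent.GR

theorem PuisI_branch_eq {n : ℕ} {U : Set ℂ} (hU : IsPreconnected U)
    {θ : Fin n → ℂ → ℂ} (hθ : ∀ j, ContinuousOn (θ j) U)
    (hinj : ∀ s ∈ U, Function.Injective fun j => θ j s) {f : ℂ → ℂ} (hf : ContinuousOn f U)
    (hr : ∀ s ∈ U, ∃ j, f s = θ j s) (hne : U.Nonempty) : ∃ j, ∀ s ∈ U, f s = θ j s := by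
  classical
  choose J hJ using hr
  let J' : U → Fin n := fun s => J s.1 s.2
  have hcl : ∀ j, IsClosed (J' ⁻¹' {j}) := by
    intro j
    have : J' ⁻¹' {j} = {s : U | f s.1 = θ j s.1} := by
      ext s
      simp only [mem_preimage, mem_singleton_iff, mem_ofPred_eq]
      constructor
      · intro h
        rw [← h]
        exact hJ s.1 s.2
      · intro h
        apply hinj s.1 s.2
        show θ (J s.1 s.2) s.1 = θ j s.1
        rw [← hJ s.1 s.2, h]
    rw [this]
    exact isClosed_eq hf.domRestrict (hθ j).domRestrict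
  have hc : Continuous J' := by
    rw [continuous_iff_isClosed]
    intro S _
    have : J' ⁻¹' S = ⋃ j ∈ S, J' ⁻¹' {j} := by
      ext s
      simp
    rw [this]
    exact (Set.toFinite S).isClosed_biUnion fun j _ => hcl j
  have : PreconnectedSpace U := isPreconnected_iff_preconnectedSpace.mp hU
  obtain ⟨s₀, hs₀⟩ := hne
  refine ⟨J s₀ hs₀, fun s hs => ?_⟩
  have h1 : J' ⟨s, hs⟩ = J' ⟨s₀, hs₀⟩ := PreconnectedSpace.constant this hc
  have h2 : J s hs = J s₀ hs₀ := h1
  rw [← h2]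
  exact hJ s hs

theorem PuisI_big (δ : ℂ[X]) (hδ : δ ≠ 0) :
    ∃ R : ℝ, 0 < R ∧ ∀ u : ℂ, R < ‖u‖ → δ.eval u ≠ 0 := by
  obtain ⟨R, hR, h⟩ := (finite_setOfPred_isRoot hδ).isBounded.exists_pos_norm_le
  exact ⟨R, hR, fun u hu h0 => (h u h0).not_gt hu⟩

theorem PuisI_map {R : ℝ} (hR : 0 < R) {e : ℕ} (he : 0 < e) :
    Bornology.cobounded ℂ ≤ Filter.map (fun z : ℂ => (R : ℂ) / z ^ e) (𝓝[≠] 0) := by
  intro S hS
  obtain ⟨ε, hε, h⟩ := Metric.mem_nhdsWithin_iff.1 (Filter.mem_map.1 hS)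
  have hR' : (R : ℂ) ≠ 0 := by exact_mod_cast hR.ne'
  filter_upwards [tendsto_norm_cobounded_atTop (E := ℂ) (Ioi_mem_atTop (R / ε ^ e))] with w hw
  have hw : R / ε ^ e < ‖w‖ := hw
  have hp : 0 < ‖w‖ := lt_trans (by positivity) hw
  have hw0 : w ≠ 0 := norm_pos_iff.1 hp
  obtain ⟨z, hz⟩ := IsAlgClosed.exists_pow_nat_eq ((R : ℂ) / w) he
  have hz0 : z ≠ 0 := fun k => by
    rw [k, zero_pow he.ne'] at hz
    exact div_ne_zero hR' hw0 hz.symm
  have hn : ‖z‖ ^ e < ε ^ e := by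
    rw [← norm_pow, hz, norm_div, Complex.norm_real, Real.norm_of_nonneg hR.le, div_lt_iff₀ hp]
    rwa [div_lt_iff₀ (by positivity), mul_comm] at hw
  have := h ⟨mem_ball_zero_iff.2 (lt_of_pow_lt_pow_left₀ e hε.le hn), hz0⟩
  rwa [mem_preimage, hz, div_div_cancel₀ hR'] at this

theorem puis_inf (F : ℂ[X][X]) (hF : F.Monic) (δ : ℂ[X]) (hδ : δ ≠ 0)
    (hsep : ∀ u θ, δ.eval u ≠ 0 → (fib F u).eval θ = 0 → (derivative (fib F u)).eval θ ≠ 0) :
    ∃ (u : ℂ → ℂ) (θ : Fin F.natDegree → ℂ → ℂ), DifferentiableOn ℂ u PD ∧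
      (∀ j, DifferentiableOn ℂ (θ j) PD) ∧
      (∀ z ∈ PD, δ.eval (u z) ≠ 0 ∧ fib F (u z) = ∏ j, (X - C (θ j z))) ∧
      Bornology.cobounded ℂ ≤ Filter.map u (𝓝[≠] 0) := by
  classical
  obtain ⟨R, hR, hG⟩ := PuisI_big δ hδ
  obtain ⟨e, hd⟩ : ∃ e, e = F.natDegree.factorial := ⟨_, rfl⟩
  have he : 0 < e := hd ▸ Nat.factorial_pos _
  have hepos : (0 : ℝ) < e := by exact_mod_cast he
  have big : ∀ w : ℂ, w ≠ 0 → ‖w‖ < 1 → δ.eval ((R : ℂ) / w) ≠ 0 := fun w h0 h1 => hG _ (by
    rw [norm_div, Complex.norm_real, Real.norm_of_nonneg hR.le, lt_div_iff₀ (norm_pos_iff.2 h0)]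
    exact mul_lt_of_lt_one_right hR h1)
  have q1 : ∀ s : ℂ, Function.Periodic.qParam 1 (s + 1) = Function.Periodic.qParam 1 s := fun s => by
    simp only [Function.Periodic.qParam, Complex.ofReal_one, div_one, mul_add, mul_one,
      Complex.exp_add, Complex.exp_two_pi_mul_I]
  have q2 : ∀ s : ℂ, Function.Periodic.qParam e s ^ e = Function.Periodic.qParam 1 s := fun s => by
    have : (e : ℂ) ≠ 0 := by exact_mod_cast he.ne'
    simp only [Function.Periodic.qParam, Complex.ofReal_one, div_one, Complex.ofReal_natCast]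
    rw [← Complex.exp_nat_mul]
    congr 1
    field_simp
  set U : Set ℂ := {s | 0 < s.im} with hUdef
  have hUo : IsOpen U := isOpen_lt continuous_const Complex.continuous_im
  have hUc : Convex ℝ U := convex_halfSpace_im_gt 0
  have hq : ∀ {h : ℝ}, 0 < h → ∀ s, ‖Function.Periodic.qParam h s‖ < 1 ↔ s ∈ U := fun hh s => by
    simpa [hUdef] using Function.Periodic.norm_qParam_lt_iff hh 0 s
  obtain ⟨θ, hθd, hθi, hθp⟩ := exists_global_branches F hF hUo hUc
    (φ := fun s => (R : ℂ) / Function.Periodic.qParam 1 s)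
    (((differentiable_const _).div Function.Periodic.differentiable_qParam
      Function.Periodic.qParam_ne_zero).differentiableOn)
    (fun s hs θ hθ => hsep _ θ
      (big _ (Function.Periodic.qParam_ne_zero s) ((hq one_pos s).2 hs)) hθ)
  have hadd : ∀ s ∈ U, ∀ k : ℕ, s + k ∈ U := fun s hs k => by simpa [hUdef] using hs
  have hadd1 : ∀ s ∈ U, s + 1 ∈ U := fun s hs => by simpa [hUdef] using hs
  have hne : U.Nonempty := ⟨Complex.I, by simp [hUdef]⟩
  have hσ : ∀ j, ∃ k, ∀ s ∈ U, θ j (s + 1) = θ k s := by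
    intro j
    refine PuisI_branch_eq hUc.isPreconnected (fun k => (hθd k).continuousOn) hθi
      (f := fun s => θ j (s + 1)) ?_ ?_ hne
    · exact (hθd j).continuousOn.comp (continuous_add_const 1).continuousOn hadd1
    · intro s hs
      have h1 := (globbr_root (hθp _ (hadd1 s hs))).2 ⟨j, rfl⟩
      rw [q1] at h1
      exact ((globbr_root (hθp s hs)).1 h1).imp fun _ => Eq.symm
  choose σ hσ using hσ
  have hσi : Function.Injective σ := by
    intro j k hjk
    obtain ⟨s, hs⟩ := hne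
    apply hθi (s + 1) (hadd1 s hs)
    show θ j (s + 1) = θ k (s + 1)
    rw [hσ j s hs, hσ k s hs, hjk]
  let τ : Equiv.Perm (Fin F.natDegree) :=
    Equiv.ofBijective σ (Finite.injective_iff_bijective.mp hσi)
  have hτ : ∀ j, τ j = σ j := fun j => rfl
  have hτk : ∀ k : ℕ, ∀ j, ∀ s ∈ U, θ j (s + k) = θ ((τ ^ k) j) s := by
    intro k
    induction k with
    | zero => intro j s _; simp
    | succ k ih =>
      intro j s hs
      rw [pow_succ, Equiv.Perm.mul_apply, ← ih (τ j) s hs, hτ, ← hσ j _ (hadd s hs k)]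
      congr 1
      push_cast
      ring
  have hτe : τ ^ e = 1 := by
    have := pow_card_eq_one (x := τ)
    rwa [Fintype.card_perm, Fintype.card_fin, ← hd] at this
  have hper : ∀ j, Function.Periodic (U.indicator (θ j)) ((e : ℝ) : ℂ) := by
    intro j s
    by_cases hs : s ∈ U
    · have hs' : s + ((e : ℝ) : ℂ) ∈ U := by simpa [hUdef] using hs
      rw [indicator_of_mem hs, indicator_of_mem hs', Complex.ofReal_natCast, hτk e j s hs, hτe]
      rfl
    · have hs' : s + ((e : ℝ) : ℂ) ∉ U := by simpa [hUdef] using hs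
      rw [indicator_of_notMem hs, indicator_of_notMem hs']
  have inv : ∀ z ∈ PD, Function.Periodic.qParam e (Function.Periodic.invQParam e z) = z ∧
      Function.Periodic.invQParam e z ∈ U := fun z hz => by
    have hzq := Function.Periodic.qParam_right_inv hepos.ne' (mem_PD.1 hz).2
    exact ⟨hzq, (hq hepos _).1 (hzq.symm ▸ (mem_PD.1 hz).1)⟩
  refine ⟨fun z => (R : ℂ) / z ^ e, fun j => Function.Periodic.cuspFunction e (U.indicator (θ j)),
    (differentiableOn_const _).div (differentiableOn_pow e) fun z hz => pow_ne_zero _ (mem_PD.1 hz).2,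
    fun j z hz => ?_, fun z hz => ⟨big _ (pow_ne_zero _ (mem_PD.1 hz).2) ?_, ?_⟩, PuisI_map hR he⟩
  · obtain ⟨hzq, hs⟩ := inv z hz
    have hol : DifferentiableAt ℂ (U.indicator (θ j)) (Function.Periodic.invQParam e z) := by
      refine ((hθd j).differentiableAt (hUo.mem_nhds hs)).congr_of_eventuallyEq ?_
      filter_upwards [hUo.mem_nhds hs] with t ht
      exact indicator_of_mem ht _
    have := Function.Periodic.differentiableAt_cuspFunction hepos.ne' (hper j) hol
    rw [hzq] at this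
    exact this.differentiableWithinAt
  · rw [norm_pow]
    exact pow_lt_one₀ (norm_nonneg _) (mem_PD.1 hz).1 he.ne'
  · obtain ⟨hzq, hs⟩ := inv z hz
    have h1 := hθp _ hs
    rw [← q2, hzq] at h1
    refine h1.trans (Finset.prod_congr rfl fun j _ => ?_)
    beta_reduce
    rw [Function.Periodic.cuspFunction_eq_of_nonzero _ _ (mem_PD.1 hz).2, indicator_of_mem hs]

end Pool.Agent.Lib.MP_9bd952_ag
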