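import Pool.Agent.Lib.MP_9bd952_ag.PuisF
import Pool.Agent.Lib.MP_9bd952_ag.PuisI

namespace Pool.Agent.Lib.MP_9bd952_ag

open Set Metric Filter Topology Asymptotics
open Polynomial Pool.Agent.GR

/-- Finitely many bounded singularities are removable. -/
theorem line_rem (T : Finset ℂ) : ∀ p : ℂ → ℂ, (∀ z, z ∉ T → DifferentiableAt ℂ p z) →
    (∀ a ∈ T, ∃ M : ℝ, ∀ᶠ z in 𝓝[≠] a, ‖p z‖ ≤ M) →
    ∃ q : ℂ → ℂ, Differentiable ℂ q ∧ ∀ z, z ∉ T → q z = p z := by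
  classical
  induction T using Finset.induction_on with
  | empty => exact fun p h _ => ⟨p, fun z => h z (by simp), fun _ _ => rfl⟩
  | insert a T ha ih =>
    intro p h hb
    have hT : IsOpen (T : Set ℂ)ᶜ := T.finite_toSet.isClosed.isOpen_compl
    obtain ⟨M, hM⟩ := hb a (Finset.mem_insert_self a T)
    have h1 := Complex.differentiableOn_update_limUnder_of_isLittleO (f := p) (c := a)
      (hT.mem_nhds ha) (fun z hz => (h z fun e => by
        rcases Finset.mem_insert.1 e with e | e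
        exacts [hz.2 e, hz.1 e]).differentiableWithinAt)
      (IsBoundedUnder.isLittleO_sub_self_inv ⟨M + ‖p a‖, eventually_map.2
        (hM.mono fun z hz => norm_sub_le_of_le hz le_rfl)⟩)
    obtain ⟨q, q1, q2⟩ := ih _ (fun z hz => h1.differentiableAt (hT.mem_nhds hz)) fun b hb' => by
      obtain ⟨N, hN⟩ := hb b (Finset.mem_insert_of_mem hb')
      have h2 : ∀ᶠ z in 𝓝 b, z ≠ a := eventually_ne_nhds fun e => ha (e ▸ hb')
      refine ⟨N, ?_⟩
      filter_upwards [hN, nhdsWithin_le_nhds h2] with z h3 h4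
      rwa [Function.update_of_ne h4]
    refine ⟨q, q1, fun z hz => ?_⟩
    rw [Finset.mem_insert, not_or] at hz
    rw [q2 z hz.2, Function.update_of_ne hz.1]

theorem line_liou {q : ℂ → ℂ} (hq : Differentiable ℂ q) {M : ℝ}
    (h : ∀ᶠ z in Bornology.cobounded ℂ, ‖q z‖ ≤ M) (z w : ℂ) : q z = q w := by
  rw [Metric.cobounded_eq_cocompact] at h
  obtain ⟨K, hK, hs⟩ := mem_cocompact.1 h
  refine hq.apply_eq_apply_of_bounded (((hK.image hq.continuous).isBounded.union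
    (isBounded_closedBall (x := (0 : ℂ)) (r := M))).subset ?_) z w
  rintro _ ⟨x, rfl⟩
  by_cases hx : x ∈ K
  · exact Or.inl (mem_image_of_mem q hx)
  · exact Or.inr (mem_closedBall_zero_iff.2 (hs hx))

theorem line_prod {n : ℕ} {P : ℂ[X]} {θ : Fin n → ℂ} (h : P = ∏ j, (X - C (θ j))) (g : ℂ → ℂ) :
    (P.roots.map g).prod = ∏ j, g (θ j) ∧ ∀ j, P.eval (θ j) = 0 := by
  refine ⟨?_, fun j => ?_⟩
  · have e : P = (((Finset.univ : Finset (Fin n)).val.map θ).map fun a => X - C a).prod := by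
      rw [h, Multiset.map_map]; rfl
    rw [e, roots_multiset_prod_X_sub_C, Multiset.map_map]; rfl
  · rw [h, eval_prod]
    exact Finset.prod_eq_zero (Finset.mem_univ j) (by simp)

/-- Liouville's theorem on an affine plane curve. -/
theorem line_const (F : ℂ[X][X]) (hF : F.Monic) (δ : ℂ[X]) (hδ : δ ≠ 0)
    (hsep : ∀ u θ, δ.eval u ≠ 0 → (fib F u).eval θ = 0 → (derivative (fib F u)).eval θ ≠ 0)
    (φ : ℂ → ℂ → ℂ)
    (hb : ∀ u θ : ℂ → ℂ, DifferentiableOn ℂ u PD → DifferentiableOn ℂ θ PD →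
      (∀ z ∈ PD, δ.eval (u z) ≠ 0 ∧ (fib F (u z)).eval (θ z) = 0) →
        ∃ M : ℝ, ∀ᶠ z in 𝓝[≠] (0 : ℂ), ‖φ (u z) (θ z)‖ ≤ M)
    (hd : ∀ (B : Set ℂ) (θ : ℂ → ℂ), IsOpen B → DifferentiableOn ℂ θ B →
      (∀ u ∈ B, δ.eval u ≠ 0 ∧ (fib F u).eval (θ u) = 0) →
        DifferentiableOn ℂ (fun u => φ u (θ u)) B)
    {u u' τ : ℂ} (hu : δ.eval u ≠ 0) (hu' : δ.eval u' ≠ 0) (hτ : (fib F u).eval τ = 0) :
    ∃ τ', (fib F u').eval τ' = 0 ∧ φ u τ = φ u' τ' := by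
  classical
  obtain ⟨w, hw⟩ : ∃ w, w = φ u τ := ⟨_, rfl⟩
  obtain ⟨p, hp⟩ : ∃ p : ℂ → ℂ, ∀ z, p z = ((fib F z).roots.map fun t => w - φ z t).prod :=
    ⟨_, fun _ => rfl⟩
  have hT : ∀ z, z ∉ δ.roots.toFinset ↔ δ.eval z ≠ 0 := fun z => by
    rw [Multiset.mem_toFinset, mem_roots hδ, IsRoot.def]
  have hB : ∀ l : Filter ℂ, (∃ (v : ℂ → ℂ) (θ : Fin F.natDegree → ℂ → ℂ),
      DifferentiableOn ℂ v PD ∧ (∀ j, DifferentiableOn ℂ (θ j) PD) ∧
      (∀ z ∈ PD, δ.eval (v z) ≠ 0 ∧ fib F (v z) = ∏ j, (X - C (θ j z))) ∧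
      l ≤ Filter.map v (𝓝[≠] 0)) → ∃ M : ℝ, ∀ᶠ z in l, ‖p z‖ ≤ M := by
    rintro l ⟨v, θ, h1, h2, h3, h4⟩
    choose M hM using fun j => hb v (θ j) h1 (h2 j) fun z hz =>
      ⟨(h3 z hz).1, (line_prod (h3 z hz).2 id).2 j⟩
    refine ⟨∏ j, (‖w‖ + M j), Eventually.filter_mono h4 (eventually_map.2 ?_)⟩
    filter_upwards [PD_mem, eventually_all.2 hM] with z hz h5
    rw [hp, (line_prod (h3 z hz).2 _).1, norm_prod]
    exact Finset.prod_le_prod (fun _ _ => norm_nonneg _) fun j _ =>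
      norm_sub_le_of_le le_rfl (h5 j)
  obtain ⟨q, q1, q2⟩ := line_rem δ.roots.toFinset p (fun z hz => by
    obtain ⟨ε, e0, θ, h1, -, h2⟩ := exists_branches F hF fun t => hsep z t ((hT z).1 hz)
    have ho : IsOpen (ball z ε ∩ {x | δ.eval x ≠ 0}) :=
      isOpen_ball.inter (isOpen_ne_fun δ.continuous continuous_const)
    have h3 : DifferentiableOn ℂ (fun x => ∏ j, (w - φ x (θ j x)))
        (ball z ε ∩ {x | δ.eval x ≠ 0}) :=
      DifferentiableOn.fun_finsetProd fun j _ => (differentiableOn_const w).sub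
        (hd _ (θ j) ho ((h1 j).mono inter_subset_left) fun x hx =>
          ⟨hx.2, (line_prod (h2 x hx.1) id).2 j⟩)
    exact (h3.congr fun x hx => by rw [hp, (line_prod (h2 x hx.1) _).1]).differentiableAt
      (ho.mem_nhds ⟨mem_ball_self e0, (hT z).1 hz⟩)) fun a _ => hB _ (puis_fin F hF δ hδ hsep a)
  obtain ⟨M, hM⟩ := hB _ (puis_inf F hF δ hδ hsep)
  have h0 : ∀ z, fib F z ≠ 0 := fun z => (hF.map _).ne_zero
  have h1 : q u' = q u := line_liou q1 (M := M) (by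
    filter_upwards [hM, δ.roots.toFinset.finite_toSet.isBounded] with z h2 h3
    rwa [q2 z h3]) u' u
  rw [q2 u' ((hT _).2 hu'), q2 u ((hT _).2 hu), hp, hp, Multiset.prod_eq_zero
    (s := (fib F u).roots.map fun t => w - φ u t)
    (Multiset.mem_map.2 ⟨τ, (mem_roots (h0 u)).2 hτ, by rw [hw, sub_self]⟩),
    Multiset.prod_eq_zero_iff] at h1
  obtain ⟨τ', h2, h3⟩ := Multiset.mem_map.1 h1
  exact ⟨τ', (mem_roots (h0 u')).1 h2, hw ▸ sub_eq_zero.1 h3⟩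

end Pool.Agent.Lib.MP_9bd952_ag
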