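import Mathlib

/-! A primitive element for a finite extension of domains in characteristic zero. -/

namespace Pool.Agent.Lib.MP_9bd952_ag

open Set Metric Filter Topology Asymptotics
open Polynomial
open scoped nonZeroDivisors

/-- Clearing the denominators of a polynomial over the fraction field. -/
theorem prim_clear {B K : Type} [CommRing B] [IsDomain B] [Field K] [Algebra B K]
    [IsFractionRing B K] (p : K[X]) :
    ∃ b : B, b ≠ 0 ∧ ∃ q : B[X], q.map (algebraMap B K) = C (algebraMap B K b) * p := by
  obtain ⟨b, hb, h⟩ := IsLocalization.integerNormalization_spec B⁰ p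
  refine ⟨b, nonZeroDivisors.ne_zero hb, _, h.trans ?_⟩
  rw [← smul_eq_C_mul, algebraMap_smul]

/-- The statement with the fraction fields as data. -/
theorem prim_fields {B A K L : Type} [CommRing B] [IsDomain B] [IsIntegrallyClosed B]
    [CommRing A] [IsDomain A] [Algebra B A] [Module.Finite B A] [FaithfulSMul B A]
    [Field K] [CharZero K] [Algebra B K] [IsFractionRing B K] [Field L] [Algebra A L]
    [IsFractionRing A L] [Algebra B L] [Algebra K L] [IsScalarTower B K L] [IsScalarTower B A L] :
    ∃ (θ : A) (F : B[X]) (δ : B), F.Monic ∧ δ ≠ 0 ∧ aeval θ F = 0 ∧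
      (∀ G : B[X], aeval θ G = 0 → F ∣ G) ∧ (∃ U V : B[X], U * F + V * derivative F = C δ) ∧
        ∀ a : A, ∃ Q : B[X], algebraMap B A δ * a = aeval θ Q := by
  classical
  have hfin : FiniteDimensional K L := Module.Finite.of_isLocalization B A B⁰
  obtain ⟨α, hα⟩ := Field.exists_primitive_element K L
  obtain ⟨⟨θ, _, b, hb, rfl⟩, hθ⟩ := IsLocalization.surj (Algebra.algebraMapSubmonoid A B⁰) α
  have hb0 : algebraMap B K b ≠ 0 :=
    (map_ne_zero_iff _ (IsFractionRing.injective B K)).2 (nonZeroDivisors.ne_zero hb)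
  have hθ' : α = algebraMap K L (algebraMap B K b)⁻¹ * algebraMap A L θ := by
    have e : algebraMap A L (algebraMap B A b) = algebraMap K L (algebraMap B K b) := by
      rw [← IsScalarTower.algebraMap_apply, ← IsScalarTower.algebraMap_apply]
    have h : α * algebraMap K L (algebraMap B K b) = algebraMap A L θ := by rw [← e]; exact hθ
    rw [← h, mul_comm α, ← mul_assoc, ← map_mul, inv_mul_cancel₀ hb0, map_one, one_mul]
  have htop : IntermediateField.adjoin K {algebraMap A L θ} = ⊤ := by
    rw [eq_top_iff, ← hα, IntermediateField.adjoin_simple_le_iff, hθ']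
    exact mul_mem (IntermediateField.algebraMap_mem _ _)
      (IntermediateField.mem_adjoin_simple_self K _)
  have hall : ∀ x : L, ∃ p : K[X], aeval (algebraMap A L θ) p = x := by
    intro x
    have h1 : x ∈ (IntermediateField.adjoin K {algebraMap A L θ}).toSubalgebra := by
      rw [htop]; trivial
    rw [IntermediateField.adjoin_simple_toSubalgebra_of_isAlgebraic (IsAlgebraic.of_finite K _),
      Algebra.adjoin_singleton_eq_range_aeval] at h1
    exact h1
  have hone : ∀ a : A, ∃ d : B, d ≠ 0 ∧ ∃ Q : B[X], algebraMap B A d * a = aeval θ Q := by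
    intro a
    obtain ⟨p, hp⟩ := hall (algebraMap A L a)
    obtain ⟨d, hd, q, hq⟩ := prim_clear (B := B) p
    refine ⟨d, hd, q, IsFractionRing.injective A L ?_⟩
    rw [← aeval_algebraMap_apply, ← aeval_map_algebraMap K, hq, map_mul, map_mul, aeval_C, hp,
      ← IsScalarTower.algebraMap_apply, ← IsScalarTower.algebraMap_apply]
  choose d hd Q hQ using hone
  obtain ⟨s, hs⟩ := Module.Finite.fg_top (R := B) (M := A)
  have hgen : ∀ a : A, ∃ P : B[X], algebraMap B A (∏ x ∈ s, d x) * a = aeval θ P := by
    intro a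
    have ha : a ∈ Submodule.span B (s : Set A) := by rw [hs]; trivial
    induction ha using Submodule.span_induction with
    | mem x hx =>
      refine ⟨C (∏ y ∈ s.erase x, d y) * Q x, ?_⟩
      rw [← Finset.prod_erase_mul s d hx, map_mul, map_mul, aeval_C, mul_assoc, hQ]
    | zero => exact ⟨0, by simp⟩
    | add x y _ _ hx hy =>
      obtain ⟨P, hP⟩ := hx
      obtain ⟨P', hP'⟩ := hy
      exact ⟨P + P', by rw [mul_add, map_add, hP, hP']⟩
    | smul c x _ hx =>
      obtain ⟨P, hP⟩ := hx
      exact ⟨C c * P, by rw [map_mul, aeval_C, ← hP, Algebra.smul_def, mul_left_comm]⟩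
  have hint : IsIntegral B θ := IsIntegral.of_finite B θ
  have hsep : ((minpoly B θ).map (algebraMap B K)).Separable := by
    rw [← minpoly.isIntegrallyClosed_eq_field_fractions K L hint]
    exact (minpoly.irreducible (IsIntegral.of_finite K _)).separable
  obtain ⟨u, v, huv⟩ := hsep
  obtain ⟨b1, h1, U, hU⟩ := prim_clear (B := B) u
  obtain ⟨b2, h2, V, hV⟩ := prim_clear (B := B) v
  have hUV : C b2 * U * minpoly B θ + C b1 * V * derivative (minpoly B θ) = C (b1 * b2) := by
    apply map_injective (algebraMap B K) (IsFractionRing.injective B K)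
    rw [derivative_map] at huv
    simp only [Polynomial.map_add, Polynomial.map_mul, map_C, hU, hV, map_mul]
    linear_combination (C (algebraMap B K b1) * C (algebraMap B K b2)) * huv
  refine ⟨θ, minpoly B θ, b1 * b2 * ∏ x ∈ s, d x, minpoly.monic hint,
    mul_ne_zero (mul_ne_zero h1 h2) (Finset.prod_ne_zero_iff.2 fun x _ => hd x),
    minpoly.aeval B θ, fun G hG => minpoly.isIntegrallyClosed_dvd hint hG,
    ⟨C (∏ x ∈ s, d x) * (C b2 * U), C (∏ x ∈ s, d x) * (C b1 * V), ?_⟩, fun a => ?_⟩
  · rw [map_mul C (b1 * b2), ← hUV]; ring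
  · obtain ⟨P, hP⟩ := hgen a
    exact ⟨C (b1 * b2) * P, by
      rw [map_mul (aeval θ), aeval_C, ← hP, map_mul _ (b1 * b2), mul_assoc]⟩

theorem exists_prim {B A : Type} [CommRing B] [IsDomain B] [IsIntegrallyClosed B] [CharZero B]
    [CommRing A] [IsDomain A] [Algebra B A] [Module.Finite B A]
    (hi : Function.Injective (algebraMap B A)) :
    ∃ (θ : A) (F : B[X]) (δ : B), F.Monic ∧ δ ≠ 0 ∧ aeval θ F = 0 ∧
      (∀ G : B[X], aeval θ G = 0 → F ∣ G) ∧ (∃ U V : B[X], U * F + V * derivative F = C δ) ∧
        ∀ a : A, ∃ Q : B[X], algebraMap B A δ * a = aeval θ Q := by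
  have h1 : FaithfulSMul B A := (faithfulSMul_iff_algebraMap_injective B A).2 hi
  let _ : Algebra (FractionRing B) (FractionRing A) := FractionRing.liftAlgebra B _
  have h2 := FractionRing.isScalarTower_liftAlgebra B (FractionRing A)
  exact prim_fields (K := FractionRing B) (L := FractionRing A)

end Pool.Agent.Lib.MP_9bd952_ag
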