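import Pool.Agent.Lib.MP_9bd952_ag.Defs
import Pool.Agent.Lib.MP_9bd952_ag.Prim

namespace Pool.Agent.Lib.MP_9bd952_ag

open Set Metric Filter Topology Asymptotics
open Polynomial

/-- Clearing denominators: every polynomial in the coordinates is a polynomial in the primitive
element, compatibly with a specialisation. -/
theorem param_clear {m : ℕ} {B A : Type} [CommRing B] [CommRing A]
    (mk : MvPolynomial (Fin m) ℂ →+* A) (α : B[X] →+* A) (ψ : B[X] →+* ℂ) (δ : B)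
    (Q : Fin m → B[X]) (hc : ∀ c : ℂ, ∃ G, α G = mk (MvPolynomial.C c) ∧ ψ G = c)
    (hQ : ∀ i, α (C δ) * mk (MvPolynomial.X i) = α (Q i)) (hδ : ψ (C δ) ≠ 0)
    (P : MvPolynomial (Fin m) ℂ) : ∃ (G : B[X]) (n : ℕ), α G = α (C δ) ^ n * mk P ∧
      ψ G = ψ (C δ) ^ n * MvPolynomial.eval (fun i => ψ (Q i) / ψ (C δ)) P := by
  induction P using MvPolynomial.induction_on with
  | C a =>
    obtain ⟨G, h1, h2⟩ := hc a
    exact ⟨G, 0, by rw [h1, pow_zero, one_mul], by rw [h2, pow_zero, one_mul, MvPolynomial.eval_C]⟩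
  | add p q hp hq =>
    obtain ⟨G, n, h1, h2⟩ := hp
    obtain ⟨G', n', h1', h2'⟩ := hq
    refine ⟨C δ ^ n' * G + C δ ^ n * G', n + n', ?_, ?_⟩
    · rw [map_add, map_mul, map_mul, map_pow, map_pow, h1, h1', map_add]
      ring
    · rw [map_add, map_mul, map_mul, map_pow, map_pow, h2, h2', map_add]
      ring
  | mul_X p i hp =>
    obtain ⟨G, n, h1, h2⟩ := hp
    refine ⟨G * Q i, n + 1, ?_, ?_⟩
    · rw [map_mul, h1, ← hQ, map_mul]
      ring
    · rw [map_mul, h2, map_mul, MvPolynomial.eval_X]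
      field_simp
      ring

/-- The coordinate ring of an irreducible set. -/
theorem param_ring {m : ℕ} {Y : Set (Fin m → ℂ)} (hne : Y.Nonempty)
    (hp : ∀ P Q : MvPolynomial (Fin m) ℂ,
      (∀ y ∈ Y, MvPolynomial.eval y P * MvPolynomial.eval y Q = 0) →
        (∀ y ∈ Y, MvPolynomial.eval y P = 0) ∨ ∀ y ∈ Y, MvPolynomial.eval y Q = 0) :
    ∃ (A : Type) (_ : CommRing A) (_ : IsDomain A) (_ : Algebra ℂ A)
      (mk : MvPolynomial (Fin m) ℂ →ₐ[ℂ] A), Function.Surjective mk ∧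
      (∀ P, (∀ y ∈ Y, MvPolynomial.eval y P = 0) → mk P = 0) ∧
      ∀ y ∈ Y, ∃ e : A →+* ℂ, ∀ P, e (mk P) = MvPolynomial.eval y P := by
  obtain ⟨I, hI⟩ : ∃ I : Ideal (MvPolynomial (Fin m) ℂ),
      ∀ P, P ∈ I ↔ ∀ y ∈ Y, MvPolynomial.eval y P = 0 :=
    ⟨⨅ y ∈ Y, RingHom.ker (MvPolynomial.eval y), fun P => by
      simp only [Ideal.mem_iInf, RingHom.mem_ker]⟩
  have hprime : I.IsPrime := by
    refine ⟨fun h => ?_, fun {P Q} h => ?_⟩
    · obtain ⟨y, hy⟩ := hne
      have := (hI 1).1 (h ▸ Submodule.mem_top) y hy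
      simp at this
    · rw [hI, hI]
      exact hp P Q fun y hy => by rw [← map_mul]; exact (hI _).1 h y hy
  exact ⟨MvPolynomial (Fin m) ℂ ⧸ I, inferInstance, inferInstance, inferInstance,
    Ideal.Quotient.mkₐ ℂ I, Ideal.Quotient.mk_surjective,
    fun P h => Ideal.Quotient.eq_zero_iff_mem.2 ((hI P).2 h), fun y hy =>
      ⟨Ideal.Quotient.lift I (MvPolynomial.eval y) fun P hP => (hI P).1 hP y hy, fun _ => rfl⟩⟩

/-- Off a hypersurface, an irreducible variety is a separable finite cover of an affine space. -/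
theorem exists_param {m : ℕ} {Y : Set (Fin m → ℂ)} (hY : Alg Y) (hne : Y.Nonempty)
    (hp : ∀ P Q : MvPolynomial (Fin m) ℂ,
      (∀ y ∈ Y, MvPolynomial.eval y P * MvPolynomial.eval y Q = 0) →
        (∀ y ∈ Y, MvPolynomial.eval y P = 0) ∨ ∀ y ∈ Y, MvPolynomial.eval y Q = 0) :
    ∃ (s : ℕ) (π : Fin s → MvPolynomial (Fin m) ℂ) (θ : MvPolynomial (Fin m) ℂ)
      (F : (MvPolynomial (Fin s) ℂ)[X]) (δ : MvPolynomial (Fin s) ℂ)
      (Q : Fin m → (MvPolynomial (Fin s) ℂ)[X]), F.Monic ∧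
      (∃ y ∈ Y, MvPolynomial.eval (fun i => MvPolynomial.eval y (π i)) δ ≠ 0) ∧
      (∀ (t : Fin s → ℂ) (τ : ℂ), MvPolynomial.eval t δ ≠ 0 →
        (F.map (MvPolynomial.eval t)).eval τ = 0 →
          (derivative (F.map (MvPolynomial.eval t))).eval τ ≠ 0 ∧
            (fun i => ((Q i).map (MvPolynomial.eval t)).eval τ / MvPolynomial.eval t δ) ∈ Y) ∧
      ∀ y ∈ Y, (F.map (MvPolynomial.eval fun i => MvPolynomial.eval y (π i))).eval
          (MvPolynomial.eval y θ) = 0 ∧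
        ∀ i, MvPolynomial.eval (fun i => MvPolynomial.eval y (π i)) δ * y i =
          ((Q i).map (MvPolynomial.eval fun i => MvPolynomial.eval y (π i))).eval
            (MvPolynomial.eval y θ) := by
  obtain ⟨A, _, _, _, mk, hs, hk, he⟩ := param_ring hne hp
  have : Algebra.FiniteType ℂ A := Algebra.FiniteType.of_surjective mk hs
  obtain ⟨s, g, hg, hfin⟩ := exists_finite_inj_algHom_of_fg ℂ A
  let _ : Algebra (MvPolynomial (Fin s) ℂ) A := g.toRingHom.toAlgebra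
  have : Module.Finite (MvPolynomial (Fin s) ℂ) A := hfin
  have ha : ∀ b, algebraMap (MvPolynomial (Fin s) ℂ) A b = g b := fun _ => rfl
  have hC : ∀ c : ℂ, g (MvPolynomial.C c) = mk (MvPolynomial.C c) := fun c =>
    (g.commutes c).trans (mk.commutes c).symm
  obtain ⟨θ', F, δ, hF, hδ, hθ, hdvd, ⟨U, V, hUV⟩, hQ⟩ :=
    exists_prim (B := MvPolynomial (Fin s) ℂ) (A := A) hg
  choose π hπ using fun i : Fin s => hs (g (MvPolynomial.X i))
  obtain ⟨θ, rfl⟩ := hs θ'
  choose Q hQ using fun i : Fin m => hQ (mk (MvPolynomial.X i))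
  have hev : ∀ y ∈ Y, ∃ e : A →+* ℂ, (∀ P, e (mk P) = MvPolynomial.eval y P) ∧
      (∀ b, e (g b) = MvPolynomial.eval (fun i => MvPolynomial.eval y (π i)) b) ∧
      ∀ G, e (aeval (mk θ) G) =
        (G.map (MvPolynomial.eval fun i => MvPolynomial.eval y (π i))).eval
          (MvPolynomial.eval y θ) := fun y hy => by
    obtain ⟨e, he⟩ := he y hy
    have h1 : e.comp (algebraMap (MvPolynomial (Fin s) ℂ) A) =
        MvPolynomial.eval fun i => MvPolynomial.eval y (π i) :=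
      MvPolynomial.ringHom_ext
        (fun c => by rw [RingHom.comp_apply, ha, hC, he, MvPolynomial.eval_C, MvPolynomial.eval_C])
        fun i => by rw [RingHom.comp_apply, ha, ← hπ, he, MvPolynomial.eval_X]
    refine ⟨e, he, fun b => RingHom.congr_fun h1 b, fun G => ?_⟩
    rw [aeval_def, hom_eval₂, h1, he, eval_map]
  refine ⟨s, π, θ, F, δ, Q, hF, ?_, fun t τ ht hτ => ⟨fun h0 => ?_, ?_⟩, fun y hy => ?_⟩
  · by_contra c
    obtain ⟨P, hP⟩ := hs (g δ)
    have h1 : mk P = 0 := hk P fun y hy => by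
      obtain ⟨e, e1, e2, -⟩ := hev y hy
      rw [← e1, hP, e2]
      by_contra c'
      exact c ⟨y, hy, c'⟩
    exact hδ (hg (by rw [← hP, map_zero, h1]))
  · have h1 := congrArg (fun G => (G.map (MvPolynomial.eval t)).eval τ) hUV
    simp only [Polynomial.map_add, Polynomial.map_mul, eval_add, eval_mul, ← derivative_map, hτ,
      h0, mul_zero, add_zero, map_C, eval_C] at h1
    exact ht h1.symm
  · obtain ⟨S, hS⟩ := hY
    rw [hS]
    intro P hP
    have h1 : mk.toRingHom P = 0 := hk P fun y hy => (hS ▸ hy) P hP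
    obtain ⟨ψ, hψ⟩ : ∃ ψ : (MvPolynomial (Fin s) ℂ)[X] →+* ℂ,
        ∀ G, ψ G = (G.map (MvPolynomial.eval t)).eval τ :=
      ⟨eval₂RingHom (MvPolynomial.eval t) τ, fun G => (eval_map _ _).symm⟩
    have h2 : ψ (C δ) = MvPolynomial.eval t δ := by rw [hψ, map_C, eval_C]
    obtain ⟨G, n, g1, g2⟩ := param_clear mk.toRingHom
      (aeval (mk θ) : (MvPolynomial (Fin s) ℂ)[X] →ₐ[MvPolynomial (Fin s) ℂ] A).toRingHom ψ δ Q
      (fun c => ⟨C (MvPolynomial.C c), (aeval_C _ _).trans ((ha _).trans (hC c)), by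
        rw [hψ, map_C, eval_C, MvPolynomial.eval_C]⟩)
      (fun i => (congrArg (· * _) (aeval_C _ δ)).trans (hQ i)) (h2 ▸ ht) P
    rw [h1, mul_zero] at g1
    obtain ⟨H, rfl⟩ := hdvd G g1
    rw [map_mul, hψ F, hτ, zero_mul, h2] at g2
    have h3 := (mul_eq_zero.1 g2.symm).resolve_left (pow_ne_zero _ ht)
    simpa only [hψ] using h3
  · obtain ⟨e, e1, e2, e3⟩ := hev y hy
    refine ⟨by rw [← e3, hθ, map_zero], fun i => ?_⟩
    rw [← e3, ← hQ, map_mul, ha, e2, e1, MvPolynomial.eval_X]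

end Pool.Agent.Lib.MP_9bd952_ag
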