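import Pool.Agent.Lib.MP_9bd952_ag.Line
import Pool.Agent.Lib.MP_9bd952_ag.Param
import Pool.Agent.Lib.MP_9bd952_ag.Ident

namespace Pool.Agent.Lib.MP_9bd952_ag

open Set Metric Filter Topology Asymptotics
open Polynomial Pool.Agent.GR

/-- Restriction of polynomials to the line through `a` and `b`. -/
noncomputable def liouRes {s : ℕ} (a b : Fin s → ℂ) : MvPolynomial (Fin s) ℂ →+* ℂ[X] :=
  MvPolynomial.eval₂Hom C fun i => C (a i) + C (b i - a i) * X

theorem liou_comp {s : ℕ} (a b : Fin s → ℂ) (u : ℂ) :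
    (evalRingHom u).comp (liouRes a b) = MvPolynomial.eval fun i => a i + (b i - a i) * u := by
  refine MvPolynomial.ringHom_ext (fun c => ?_) fun i => ?_
  · simp [liouRes]
  · simp [liouRes]

theorem liou_eval {s : ℕ} (a b : Fin s → ℂ) (u : ℂ) (P : MvPolynomial (Fin s) ℂ) :
    (liouRes a b P).eval u = MvPolynomial.eval (fun i => a i + (b i - a i) * u) P := by
  rw [← liou_comp]
  rfl

theorem liou_fib {s : ℕ} (a b : Fin s → ℂ) (u : ℂ) (G : (MvPolynomial (Fin s) ℂ)[X]) :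
    fib (G.map (liouRes a b)) u = G.map (MvPolynomial.eval fun i => a i + (b i - a i) * u) := by
  rw [fib, Polynomial.map_map, liou_comp]

theorem liou_diff (G : ℂ[X][X]) {B : Set ℂ} {u θ : ℂ → ℂ} (hu : DifferentiableOn ℂ u B)
    (hθ : DifferentiableOn ℂ θ B) :
    DifferentiableOn ℂ (fun z => (fib G (u z)).eval (θ z)) B := by
  induction G using Polynomial.induction_on' with
  | add p q hp hq =>
    simp only [fib, Polynomial.map_add, eval_add] at hp hq ⊢
    exact hp.add hq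
  | monomial n a =>
    simp only [fib, Polynomial.map_monomial, eval_monomial, coe_evalRingHom]
    exact (a.differentiable.comp_differentiableOn hu).mul (hθ.pow n)

/-- The values over one good point are among the values over any other good point. -/
theorem liou_line {m s : ℕ} {Y : Set (Fin m → ℂ)} {g : (Fin m → ℂ) → ℂ} (hg : Hol Y g)
    (hb : ∀ γ, Disc Y γ → ∃ M : ℝ, ∀ᶠ z in 𝓝[≠] (0 : ℂ), ‖g (γ z)‖ ≤ M)
    {F : (MvPolynomial (Fin s) ℂ)[X]} {δ : MvPolynomial (Fin s) ℂ}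
    {Q : Fin m → (MvPolynomial (Fin s) ℂ)[X]} (hF : F.Monic)
    (hr : ∀ (t : Fin s → ℂ) (τ : ℂ), MvPolynomial.eval t δ ≠ 0 →
      (F.map (MvPolynomial.eval t)).eval τ = 0 →
        (derivative (F.map (MvPolynomial.eval t))).eval τ ≠ 0 ∧
          (fun i => ((Q i).map (MvPolynomial.eval t)).eval τ / MvPolynomial.eval t δ) ∈ Y)
    {a b : Fin s → ℂ} (ha : MvPolynomial.eval a δ ≠ 0) (hb' : MvPolynomial.eval b δ ≠ 0) {τ : ℂ}
    (hτ : (F.map (MvPolynomial.eval b)).eval τ = 0) :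
    ∃ τ', (F.map (MvPolynomial.eval a)).eval τ' = 0 ∧
      g (fun i => ((Q i).map (MvPolynomial.eval b)).eval τ / MvPolynomial.eval b δ) =
        g (fun i => ((Q i).map (MvPolynomial.eval a)).eval τ' / MvPolynomial.eval a δ) := by
  have e0 : (fun i => a i + (b i - a i) * 0) = a := by funext i; ring
  have e1 : (fun i => a i + (b i - a i) * 1) = b := by funext i; ring
  have d0 : (liouRes a b δ).eval 0 ≠ 0 := by rwa [liou_eval, e0]
  have d1 : (liouRes a b δ).eval 1 ≠ 0 := by rwa [liou_eval, e1]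
  have key : ∀ (B : Set ℂ) (u θ : ℂ → ℂ), DifferentiableOn ℂ u B → DifferentiableOn ℂ θ B →
      (∀ z ∈ B, (liouRes a b δ).eval (u z) ≠ 0 ∧
        (fib (F.map (liouRes a b)) (u z)).eval (θ z) = 0) →
      DifferentiableOn ℂ (fun z => fun i => (fib ((Q i).map (liouRes a b)) (u z)).eval (θ z) /
        (liouRes a b δ).eval (u z)) B ∧
      MapsTo (fun z => fun i => (fib ((Q i).map (liouRes a b)) (u z)).eval (θ z) /
        (liouRes a b δ).eval (u z)) B Y := by
    intro B u θ hu hθ h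
    refine ⟨differentiableOn_pi.2 fun i => (liou_diff _ hu hθ).div
      ((liouRes a b δ).differentiable.comp_differentiableOn hu) fun z hz => (h z hz).1,
      fun z hz => ?_⟩
    have h1 := h z hz
    simp only [liou_fib, liou_eval] at h1 ⊢
    exact (hr _ _ h1.1 h1.2).2
  obtain ⟨τ', h1, h2⟩ := line_const (F.map (liouRes a b)) (hF.map _) (liouRes a b δ)
    (fun h => d0 (by rw [h, eval_zero]))
    (fun u θ hu hθ => by
      rw [liou_eval] at hu
      rw [liou_fib] at hθ ⊢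
      exact (hr _ _ hu hθ).1)
    (fun u θ => g fun i => (fib ((Q i).map (liouRes a b)) u).eval θ / (liouRes a b δ).eval u)
    (fun u θ hu hθ h => hb _ (key PD u θ hu hθ h))
    (fun B θ _ hθ h => hg.comp (key B id θ differentiableOn_id hθ h).1
      (key B id θ differentiableOn_id hθ h).2)
    d1 d0 (τ := τ) (by rwa [liou_fib, e1])
  simp only [liou_fib, liou_eval, e0, e1] at h1 h2
  exact ⟨τ', h1, h2⟩

/-- Liouville's theorem on an affine manifold. -/
theorem liouville {m : ℕ} {Y : Set (Fin m → ℂ)} (hA : Alg Y) (hS : Smooth Y) (hc : IsConnected Y)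
    {g : (Fin m → ℂ) → ℂ} (hg : Hol Y g)
    (hb : ∀ γ, Disc Y γ → ∃ M : ℝ, ∀ᶠ z in 𝓝[≠] (0 : ℂ), ‖g (γ z)‖ ≤ M) :
    ∀ y ∈ Y, ∀ y' ∈ Y, g y = g y' := by
  obtain ⟨s, π, θ, F, δ, Q, hF, ⟨y0, hy0, hδ0⟩, hr, hY⟩ := exists_param hA hc.nonempty
    (fun P Q h => by
      by_cases hP : ∀ y ∈ Y, MvPolynomial.eval y P = 0
      · exact Or.inl hP
      · push Not at hP
        obtain ⟨y, hy, hne⟩ := hP
        exact Or.inr (ident hS hc (hol_poly Q) (U := {y | MvPolynomial.eval y P ≠ 0})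
          (isOpen_ne_fun (MvPolynomial.continuous_eval P) continuous_const) ⟨y, hy, hne⟩
          fun z hz => (mul_eq_zero.1 (h z hz.1)).resolve_left hz.2))
  set a : Fin s → ℂ := fun i => MvPolynomial.eval y0 (π i) with ha
  set E : Set ℂ := (fun τ' =>
    g (fun i => ((Q i).map (MvPolynomial.eval a)).eval τ' / MvPolynomial.eval a δ)) ''
      {τ' | (F.map (MvPolynomial.eval a)).IsRoot τ'} with hE
  have hfin : E.Finite := (Polynomial.finite_setOfPred_isRoot (hF.map _).ne_zero).image _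
  have good : ∀ y ∈ Y, MvPolynomial.eval (fun i => MvPolynomial.eval y (π i)) δ ≠ 0 →
      g y ∈ E := by
    intro y hy hδ
    obtain ⟨τ', h1, h2⟩ := liou_line hg hb hF hr hδ0 hδ (hY y hy).1
    refine ⟨τ', h1, h2.symm.trans (congrArg g (funext fun i => ?_))⟩
    rw [← (hY y hy).2 i, mul_div_cancel_left₀ _ hδ]
  have hD : Hol Y fun y => MvPolynomial.eval (fun i => MvPolynomial.eval y (π i)) δ :=
    (hol_poly (MvPolynomial.eval₂ MvPolynomial.C π δ)).congr fun y _ =>
      (MvPolynomial.eval_assoc π y δ).symm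
  have all : MapsTo g Y E := by
    intro y hy
    by_contra hn
    obtain ⟨U, hU, e⟩ := _root_.continuousOn_iff'.1 hg.continuousOn Eᶜ hfin.isClosed.isOpen_compl
    have hyU : y ∈ U ∩ Y := e ▸ (⟨hn, hy⟩ : y ∈ g ⁻¹' Eᶜ ∩ Y)
    refine hδ0 (ident hS hc hD hU ⟨y, hy, hyU.1⟩ (fun z hz => ?_) y0 hy0)
    by_contra hz0
    have hz' : z ∈ g ⁻¹' Eᶜ ∩ Y := e ▸ (⟨hz.2, hz.1⟩ : z ∈ U ∩ Y)
    exact hz'.1 (good z hz.1 hz0)
  exact fun y hy y' hy' =>
    hc.isPreconnected.constant_of_mapsTo hfin.isDiscrete hg.continuousOn all hy hy'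

end Pool.Agent.Lib.MP_9bd952_ag
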