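import Pool.Agent.Lib.MP_9bd952_ag.Defs

namespace Pool.Agent.Lib.MP_9bd952_ag

open Set Metric Filter Topology Asymptotics

variable {f g : ℂ → ℂ}

theorem Mer.loc_ne (hf : Mer f) : meromorphicOrderAt f 0 ≠ ⊤ :=
  (meromorphicOrderAt_ne_top_iff_eventually_ne_zero hf.mer).2 (mem_of_superset PD_mem hf.ne)

theorem loc_ld (h : ∀ z ∈ PD, f z = g z) : ld f = ld g := funext fun z => by
  by_cases hz : z ∈ PD
  · simp only [ld, indicator_of_mem hz, logDeriv_apply, h z hz]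
    rw [Filter.EventuallyEq.deriv_eq (mem_of_superset (isOpen_PD.mem_nhds hz) h)]
  · simp [ld, hz]

theorem Mer.mul (hf : Mer f) (hg : Mer g) :
    Mer (f * g) ∧ ord (f * g) = ord f + ord g ∧ ld (f * g) = ld f + ld g := by
  refine ⟨⟨hf.diff.mul hg.diff, fun z hz => mul_ne_zero (hf.ne z hz) (hg.ne z hz),
    hf.mer.mul hg.mer⟩, ?_, funext fun z => ?_⟩
  · unfold ord
    rw [meromorphicOrderAt_mul hf.mer hg.mer, WithTop.untop₀_add hf.loc_ne hg.loc_ne]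
  · by_cases hz : z ∈ PD
    · simp only [ld, Pi.add_apply, indicator_of_mem hz]
      exact logDeriv_mul z (hf.ne z hz) (hg.ne z hz)
        (hf.diff.differentiableAt (isOpen_PD.mem_nhds hz))
        (hg.diff.differentiableAt (isOpen_PD.mem_nhds hz))
    · simp [ld, hz]

theorem Mer.inv (hf : Mer f) : Mer f⁻¹ ∧ ord f⁻¹ = -ord f ∧ ld f⁻¹ = -ld f := by
  refine ⟨⟨hf.diff.inv hf.ne, fun z hz => inv_ne_zero (hf.ne z hz), hf.mer.inv⟩, ?_,
    funext fun z => ?_⟩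
  · unfold ord
    rw [meromorphicOrderAt_inv, WithTop.untop₀_neg]
  · by_cases hz : z ∈ PD
    · have := hf.ne z hz
      simp only [ld, Pi.neg_apply, indicator_of_mem hz, logDeriv_apply, Pi.inv_apply]
      rw [deriv_inv'' (hf.diff.differentiableAt (isOpen_PD.mem_nhds hz)) this]
      field_simp
    · simp [ld, hz]

theorem mer_const {c : ℂ} (hc : c ≠ 0) (h : ∀ z ∈ PD, f z = c) :
    Mer f ∧ ord f = 0 ∧ ld f = 0 := by
  have e : (fun _ => c) =ᶠ[𝓝[≠] (0 : ℂ)] f := mem_of_superset PD_mem fun z hz => (h z hz).symm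
  refine ⟨⟨(differentiableOn_const c).congr h, fun z hz => (h z hz).trans_ne hc,
    (MeromorphicAt.const c 0).congr e⟩, ?_, funext fun z => ?_⟩
  · classical
    unfold ord
    rw [← meromorphicOrderAt_congr e, meromorphicOrderAt_const, if_neg hc]
    rfl
  · rw [loc_ld (g := fun _ => c) h]
    simp [ld]

theorem ord_ld_congr (h : ∀ z ∈ PD, f z = g z) : ord f = ord g ∧ ld f = ld g := by
  refine ⟨?_, loc_ld h⟩
  unfold ord
  rw [meromorphicOrderAt_congr (mem_of_superset PD_mem h)]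

theorem Mer.exists_eq (hf : Mer f) : ∃ u : ℂ → ℂ, AnalyticAt ℂ u 0 ∧ u 0 ≠ 0 ∧
    ∀ᶠ z in 𝓝[≠] (0 : ℂ), f z = z ^ ord f * u z := by
  obtain ⟨u, a, b, c⟩ := (meromorphicOrderAt_eq_int_iff hf.mer).1
    (WithTop.coe_untop₀_of_ne_top hf.loc_ne).symm
  exact ⟨u, a, b, by simpa [ord] using c⟩

theorem Mer.bdd (hf : Mer f) (h : ord f = 0) : ∃ M : ℝ, ∀ᶠ z in 𝓝[≠] (0 : ℂ), ‖f z‖ ≤ M := by
  obtain ⟨u, a, -, c⟩ := hf.exists_eq
  refine ⟨‖u 0‖ + 1, ?_⟩
  filter_upwards [c, nhdsWithin_le_nhds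
    (a.continuousAt.norm.eventually_lt_const (lt_add_one ‖u 0‖))] with z e k
  rw [e, h, zpow_zero, one_mul]
  exact le_of_lt k

end Pool.Agent.Lib.MP_9bd952_ag
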