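import Pool.Agent.Lib.MP_9bd952_ag.Loc

namespace Pool.Agent.Lib.MP_9bd952_ag

open Set Metric Filter Topology Asymptotics

theorem LocT_fl {φ w : ℂ → ℂ} {n : ℕ} (hw : ContinuousAt w 0) (h0 : w 0 ≠ 0)
    (e : ∀ᶠ z in 𝓝[≠] (0 : ℂ), φ z = z ^ n * w z) : φ ∈ Fl n ∧ φ ∉ Fl (n + 1) := by
  have ht : Tendsto w (𝓝[≠] 0) (𝓝 (w 0)) := hw.tendsto.mono_left nhdsWithin_le_nhds
  constructor
  · have := (isBigO_refl (fun z : ℂ => z ^ n) (𝓝[≠] 0)).mul (ht.isBigO_one ℂ)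
    exact this.congr' (EventuallyEq.symm e) (Eventually.of_forall fun z => mul_one _)
  · intro h
    obtain ⟨C, hC⟩ := IsBigO.bound h
    have t2 : Tendsto (fun z : ℂ => C * ‖z‖) (𝓝[≠] 0) (𝓝 (C * ‖(0 : ℂ)‖)) :=
      ((continuous_const.mul continuous_norm).tendsto 0).mono_left nhdsWithin_le_nhds
    have := le_of_tendsto_of_tendsto ht.norm t2 (by
      filter_upwards [hC, e, self_mem_nhdsWithin] with z a b c
      rw [b, norm_mul, pow_succ, norm_mul, mul_left_comm] at a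
      exact le_of_mul_le_mul_left a (norm_pos_iff.2 (pow_ne_zero n c)))
    simp [h0] at this

/-- If `1 - f` vanishes to order `n + 1`, then `ld f` vanishes to order exactly `n`. -/
theorem ld_exact {f g : ℂ → ℂ} (hf : Mer f) (hg : Mer g) (e : ∀ z ∈ PD, f z + g z = 1) {n : ℕ}
    (hn : ord g = n + 1) : ord f = 0 ∧ ld f ∈ Fl n ∧ ld f ∉ Fl (n + 1) := by
  obtain ⟨u, hu, h0, hg'⟩ := hg.exists_eq
  have hF : AnalyticAt ℂ (fun z : ℂ => 1 - z ^ (n + 1) * u z) 0 := by fun_prop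
  have e1 : f =ᶠ[𝓝[≠] 0] fun z : ℂ => 1 - z ^ (n + 1) * u z := by
    filter_upwards [hg', PD_mem] with z a b
    rw [← e z b, a, hn, ← Nat.cast_succ, zpow_natCast, add_sub_cancel_right]
  constructor
  · have : meromorphicOrderAt f 0 = (0 : ℤ) := (meromorphicOrderAt_eq_int_iff hf.mer).2
      ⟨_, hF, by simp, e1.mono fun z a => by simp [a]⟩
    simp [ord, this]
  · refine LocT_fl (w := fun z => -((n + 1) * u z + z * deriv u z) / (1 - z ^ (n + 1) * u z))
      (ContinuousAt.div ?_ hF.continuousAt (by simp)) (by simp [h0, Nat.cast_add_one_ne_zero]) ?_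
    · have := hu.continuousAt
      have := hu.deriv.continuousAt
      fun_prop
    · filter_upwards [e1, e1.nhdsNE_deriv, PD_mem, nhdsWithin_le_nhds hu.eventually_analyticAt]
        with z a b c d
      have k := (((hasDerivAt_pow (n + 1) z).mul
        (AnalyticAt.differentiableAt d).hasDerivAt).const_sub 1).deriv
      rw [ld, indicator_of_mem c, logDeriv_apply, a, b]
      refine (congrArg (· / _) k).trans ?_
      simp only [Nat.add_sub_cancel]
      push_cast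
      ring

theorem LocT_neg {x y : ℂ → ℂ} (hx : Mer x) (hy : Mer y) (e : ∀ z ∈ PD, x z + y z = 1) {n : ℕ}
    (hn : ord x = -(n + 1)) :
    ord y = -(n + 1) ∧ ld y - ld x ∈ Fl n ∧ ld y - ld x ∉ Fl (n + 1) := by
  obtain ⟨a1, a2, a3⟩ := hx.inv
  obtain ⟨b1, b2, b3⟩ := mer_const (f := fun _ => -1) (c := -1) (by simp) fun _ _ => rfl
  obtain ⟨c1, c2, c3⟩ := hy.mul a1
  obtain ⟨d1, d2, d3⟩ := b1.mul c1
  have := ld_exact d1 a1 (n := n) (fun z hz => by
    have h1 := hx.ne z hz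
    have h2 := e z hz
    simp only [Pi.mul_apply, Pi.inv_apply]
    field_simp
    linear_combination -h2) (by rw [a2, hn, neg_neg])
  rw [d2, d3, b2, b3, c2, c3, a2, a3, zero_add, zero_add, ← sub_eq_add_neg (ld y)] at this
  exact ⟨by omega, this.2⟩

theorem loc_typ {x y : ℂ → ℂ} (hx : Mer x) (hy : Mer y) (e : ∀ z ∈ PD, x z + y z = 1) :
    (ord x = 0 ∧ ord y = 0) ∨ ∃ n : ℕ,
      (ord x = 0 ∧ ord y = n + 1 ∧ ld x ∈ Fl n ∧ ld x ∉ Fl (n + 1)) ∨
      (ord y = 0 ∧ ord x = n + 1 ∧ ld y ∈ Fl n ∧ ld y ∉ Fl (n + 1)) ∨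
      (ord x = -(n + 1) ∧ ord y = -(n + 1) ∧ ld y - ld x ∈ Fl n ∧ ld y - ld x ∉ Fl (n + 1)) := by
  have e' : ∀ z ∈ PD, y z + x z = 1 := fun z hz => (add_comm _ _).trans (e z hz)
  rcases lt_trichotomy (ord x) 0 with h | h | h
  · have k : ord x = -(((-ord x - 1).toNat : ℕ) + 1) := by omega
    exact Or.inr ⟨_, Or.inr (Or.inr ⟨k, LocT_neg hx hy e k⟩)⟩
  · rcases lt_trichotomy (ord y) 0 with h' | h' | h'
    · have := (LocT_neg hy hx e' (n := (-ord y - 1).toNat) (by omega)).1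
      omega
    · exact Or.inl ⟨h, h'⟩
    · have k : ord y = ((ord y - 1).toNat : ℕ) + 1 := by omega
      exact Or.inr ⟨_, Or.inl ⟨h, k, (ld_exact hx hy e k).2⟩⟩
  · have k : ord x = ((ord x - 1).toNat : ℕ) + 1 := by omega
    have := ld_exact hy hx e' k
    exact Or.inr ⟨_, Or.inr (Or.inl ⟨this.1, k, this.2⟩)⟩

end Pool.Agent.Lib.MP_9bd952_ag
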