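import Pool.Agent.Lib.MP_9bd952_ag.Defs
import Pool.Agent.Lib.MP_7b5e47_an.Hq.TSch

namespace Pool.Agent.Lib.MP_9bd952_ag

open Set Metric Filter Topology Asymptotics

theorem Picard_rem {f : ℂ → ℂ} (hf : DifferentiableOn ℂ f PD) {M : ℝ}
    (h : ∀ᶠ z in 𝓝[≠] (0 : ℂ), ‖f z‖ ≤ M) : MeromorphicAt f 0 := by
  obtain ⟨ε, hε, hb⟩ := Metric.eventually_nhds_iff.1 (eventually_nhdsWithin_iff.1 (h.and PD_mem))
  have hs : ball (0 : ℂ) ε ∈ 𝓝 (0 : ℂ) := ball_mem_nhds _ hε
  have h1 := Complex.differentiableOn_update_limUnder_of_bddAbove hs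
    (hf.mono fun z hz => (hb hz.1 hz.2).2) ⟨M, by
      rintro _ ⟨z, hz, rfl⟩
      exact (hb hz.1 hz.2).1⟩
  refine (h1.analyticAt hs).meromorphicAt.congr ?_
  filter_upwards [self_mem_nhdsWithin] with z hz
  exact Function.update_of_ne hz _ _

/-- The big Picard theorem. -/
theorem picard {f : ℂ → ℂ} (hf : DifferentiableOn ℂ f PD) (h : ∀ z ∈ PD, f z ≠ 0 ∧ f z ≠ 1) :
    MeromorphicAt f 0 := by
  by_cases h1 : ∀ᶠ z in 𝓝[≠] (0 : ℂ), 1 < ‖f z‖
  · have := (Picard_rem (f := f⁻¹) (M := 1) (hf.inv fun z hz => (h z hz).1)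
      (h1.mono fun z hz => by simpa using inv_le_one_of_one_le₀ hz.le)).inv
    simpa using this
  obtain ⟨C, hC⟩ := MP_7b5e47_an.Hq.schottky 1
  have key : ∀ ε > 0, ∃ ρ, 0 < ρ ∧ ρ < ε ∧ ρ < 1 ∧ ∀ w : ℂ, ‖w‖ = ρ → ‖f w‖ ≤ C := by
    intro ε hε
    have h2 : ∀ᶠ z in 𝓝[≠] (0 : ℂ), z ≠ 0 ∧ ‖z‖ < min ε (Real.exp (-14)) := by
      filter_upwards [self_mem_nhdsWithin, nhdsWithin_le_nhds
        (ball_mem_nhds (0 : ℂ) (lt_min hε (Real.exp_pos (-14))))] with z a b
      exact ⟨a, mem_ball_zero_iff.1 b⟩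
    obtain ⟨z, hz, z0, hz2⟩ := ((not_eventually.1 h1).and_eventually h2).exists
    have zp := norm_pos_iff.2 z0
    have z1 := (lt_min_iff.1 hz2).2
    have hm : ∀ s ∈ ball (0 : ℂ) 14, z * Complex.exp (s * Complex.I) ∈ PD := fun s hs => by
      refine mem_PD.2 ⟨?_, mul_ne_zero z0 (Complex.exp_ne_zero _)⟩
      have a := Complex.norm_exp_le_exp_norm (s * Complex.I)
      rw [norm_mul, Complex.norm_I, mul_one] at a
      have b := Real.exp_le_exp.2 (mem_ball_zero_iff.1 hs).le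
      have c : Real.exp (-14) * Real.exp 14 = 1 := by rw [← Real.exp_add]; simp
      rw [norm_mul]
      nlinarith [Real.exp_pos 14, norm_nonneg (Complex.exp (s * Complex.I))]
    have h3 := hC (fun s => f (z * Complex.exp (s * Complex.I))) 0 14 (by norm_num)
      (hf.comp (by fun_prop) hm) (fun s hs => h _ (hm s hs)) (by simpa using hz)
    refine ⟨‖z‖, zp, (lt_min_iff.1 hz2).1,
      z1.trans (Real.exp_lt_one_iff.2 (by norm_num)), fun w hw => ?_⟩
    have e : z * Complex.exp ((Complex.arg (w / z) : ℂ) * Complex.I) = w := by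
      have := Complex.norm_mul_exp_arg_mul_I (w / z)
      rw [norm_div, hw, div_self zp.ne', Complex.ofReal_one, one_mul] at this
      rw [this]; field_simp
    rw [← e]
    refine h3 _ (mem_ball_zero_iff.2 ?_)
    rw [Complex.norm_real, Real.norm_eq_abs]
    linarith [Complex.abs_arg_le_pi (w / z), Real.pi_le_four]
  obtain ⟨R, R0, -, R1, hR⟩ := key 1 one_pos
  refine Picard_rem (M := C) hf ?_
  filter_upwards [self_mem_nhdsWithin, nhdsWithin_le_nhds (ball_mem_nhds (0 : ℂ) R0)] with z a b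
  obtain ⟨ρ, r0, r1, -, hρ⟩ := key ‖z‖ (norm_pos_iff.2 a)
  have hcl : closure (ball (0 : ℂ) R \ closedBall 0 ρ) ⊆ closedBall 0 R \ ball 0 ρ :=
    closure_minimal (sdiff_subset_sdiff ball_subset_closedBall ball_subset_closedBall)
      (isClosed_closedBall.sdiff isOpen_ball)
  have hs : closedBall (0 : ℂ) R \ ball 0 ρ ⊆ PD := fun w hw => mem_PD.2
    ⟨(mem_closedBall_zero_iff.1 hw.1).trans_lt R1, fun e => hw.2 (by simpa [e] using r0)⟩
  refine Complex.norm_le_of_forall_mem_frontier_norm_le (U := ball 0 R \ closedBall 0 ρ)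
    (isBounded_ball.subset sdiff_subset) (hf.mono (hcl.trans hs)).diffContOnCl (fun w hw => ?_)
    (subset_closure ⟨b, by simpa using r1⟩)
  rw [(isOpen_ball.sdiff isClosed_closedBall).frontier_eq] at hw
  have a1 := hcl hw.1
  have a2 := hw.2
  simp only [Set.mem_sdiff, mem_closedBall_zero_iff, mem_ball_zero_iff, not_lt, not_and,
    not_le] at a1 a2
  rcases a1.1.lt_or_eq with c | c
  · exact hρ w (le_antisymm (a2 c) a1.2)
  · exact hR w c

end Pool.Agent.Lib.MP_9bd952_ag
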