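import Pool.Agent.Lib.MP_9bd952_ag.Rank
import Pool.Agent.Lib.MP_9bd952_ag.LocT
import Pool.Agent.Lib.MP_9bd952_ag.Picard
import Pool.Agent.Lib.MP_9bd952_ag.Comb

namespace Pool.Agent.Lib.MP_9bd952_ag

open Set Metric Filter Topology Asymptotics

variable {m : ℕ} {Y : Set (Fin m → ℂ)}

theorem Main_un {f : (Fin m → ℂ) → ℂ} (hf : Hol Y f) (h : ∀ y ∈ Y, f y ≠ 0 ∧ f y ≠ 1) :
    Un Y f ∧ Un Y (1 - f) := by
  have h1 : Hol Y (1 - f) := (hol_const 1).sub hf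
  refine ⟨⟨hf, fun y hy => (h y hy).1, fun γ hγ =>
    picard (hf.comp hγ.1 hγ.2) fun z hz => h _ (hγ.2 hz)⟩, h1,
    fun y hy => sub_ne_zero.2 (h y hy).2.symm, fun γ hγ =>
    picard (h1.comp hγ.1 hγ.2) fun z hz => ⟨sub_ne_zero.2 (h _ (hγ.2 hz)).2.symm, fun e => ?_⟩⟩
  exact (h _ (hγ.2 hz)).1 (by simpa using e)

theorem Main_count (hA : Alg Y) (hS : Smooth Y) (hc : IsConnected Y) (y0 : Y) {r : ℕ}
    (hr : Module.rank ℤ (Additive (FundamentalGroup Y y0) →+ ℤ) ≤ r) {ι : Type} (T : Finset ι)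
    (f : ι → (Fin m → ℂ) → ℂ) (hf : ∀ i ∈ T, Hol Y (f i))
    (h01 : ∀ i ∈ T, ∀ y ∈ Y, f i y ≠ 0 ∧ f i y ≠ 1)
    (hn : ∀ i ∈ T, ∃ a ∈ Y, ∃ b ∈ Y, f i a ≠ f i b)
    (hi : ∀ i ∈ T, ∀ j ∈ T, (∀ y ∈ Y, f i y = f j y) → i = j) : (T.card : ℝ) ≤ (32 / 5) ^ r := by
  classical
  have hV := rank_Vsp hA hS hc y0 hr
  have : FiniteDimensional ℚ (Vsp Y) :=
    Module.rank_lt_aleph0_iff.1 (hV.trans_lt (Cardinal.natCast_lt_aleph0))
  have hfr : Module.finrank ℚ (Vsp Y) ≤ r := Module.finrank_le_of_rank_le hV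
  have hu := fun i (h : i ∈ T) => Main_un (hf i h) (h01 i h)
  let a : T → Vsp Y := fun i => ⟨Phi Y (f i), Submodule.subset_span ⟨_, (hu i i.2).1, rfl⟩⟩
  let b : T → Vsp Y := fun i => ⟨Phi Y (1 - f i), Submodule.subset_span ⟨_, (hu i i.2).2, rfl⟩⟩
  let c : T → Fin 3 → Vsp Y := fun i => ![a i, -b i, b i - a i]
  let res : {γ // Disc Y γ} → Vsp Y →ₗ[ℚ] ℚ := fun γ =>
    { toFun := fun v => v.1.2 γ, map_add' := fun _ _ => rfl, map_smul' := fun _ _ => rfl }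
  let lg : {γ // Disc Y γ} → Vsp Y →ₗ[ℚ] (ℂ → ℂ) := fun γ =>
    { toFun := fun v => v.1.1 γ, map_add' := fun _ _ => rfl, map_smul' := fun _ _ => rfl }
  have hinj : Function.Injective c := fun i j e => by
    have e0 : Phi Y (f i) = Phi Y (f j) := congrArg Subtype.val (congrFun e 0)
    have e1 : Phi Y (1 - f i) = Phi Y (1 - f j) :=
      congrArg Subtype.val (neg_injective (congrFun e 1))
    obtain ⟨k, hk⟩ := (hu i i.2).1.ratio hA hS hc (hu j j.2).1 e0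
    obtain ⟨l, hl⟩ := (hu i i.2).2.ratio hA hS hc (hu j j.2).2 e1
    obtain ⟨p, hp, q, hq, hpq⟩ := hn j j.2
    have a1 := hl p hp
    have a2 := hl q hq
    simp only [Pi.sub_apply, Pi.one_apply, hk p hp, hk q hq] at a1 a2
    have hkl : k = l := by
      have : (k - l) * (f j p - f j q) = 0 := by linear_combination a2 - a1
      exact sub_eq_zero.1 ((mul_eq_zero.1 this).resolve_right (sub_ne_zero.2 hpq))
    have hk1 : k = 1 := by rw [← hkl] at a1; linear_combination -a1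
    exact Subtype.ext (hi i i.2 j j.2 fun y hy => by rw [hk y hy, hk1, one_mul])
  have h := count res (fun γ n => (Fl n).comap (lg γ))
    (fun γ _ _ h => Submodule.comap_mono (Fl_anti h))
    (fun v hv => Subtype.ext (Vsp_inj hA hS hc v.2 (funext hv))) (Finset.univ.image c)
    (fun s hs => by
      obtain ⟨i, -, rfl⟩ := Finset.mem_image.1 hs
      change a i + -b i + (b i - a i) = 0
      abel) fun s hs γ => by
      obtain ⟨i, -, rfl⟩ := Finset.mem_image.1 hs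
      have ra : res γ (a i) = ord (f i ∘ γ.1) := rfl
      have rb : res γ (b i) = ord ((1 - f i) ∘ γ.1) := rfl
      have la : lg γ (a i) = ld (f i ∘ γ.1) := rfl
      have lb : lg γ (b i) = ld ((1 - f i) ∘ γ.1) := rfl
      rcases loc_typ ((hu i i.2).1.mer' γ.2) ((hu i i.2).2.mer' γ.2) (fun z _ => by simp) with
        ⟨h1, h2⟩ | ⟨n, ⟨h1, h2, h3, h4⟩ | ⟨h1, h2, h3, h4⟩ | ⟨h1, h2, h3, h4⟩⟩
      · refine Or.inl fun j => ?_
        fin_cases j <;> simp [c, ra, rb, h1, h2]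
      · exact Or.inr ⟨0, n, by simp [c, ra, h1], by simp [c, ra, rb, h1, h2],
          by simpa [c, la] using h3, by simpa [c, la] using h4⟩
      · exact Or.inr ⟨1, n, by simp [c, rb, h1], by simp [c, ra, h2],
          by simpa [c, lb] using h3, by simpa [c, lb] using h4⟩
      · exact Or.inr ⟨2, n, by simp [c, ra, rb, h1, h2], by simp [c, rb, h2, add_comm],
          by simpa [c, la, lb] using h3, by simpa [c, la, lb] using h4⟩
  rw [Finset.card_image_of_injective _ hinj, Finset.card_univ, Fintype.card_coe] at h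
  exact h.trans (pow_le_pow_right₀ (by norm_num) hfr)

theorem main (hA : Alg Y) (hS : Smooth Y) (hc : IsConnected Y) (y0 : Y) {r : ℕ}
    (hr : Module.rank ℤ (Additive (FundamentalGroup Y y0) →+ ℤ) ≤ r) (Q : Set (Y → ℂ))
    (hQ : Q = {g : Y → ℂ | (∀ y, g y ≠ 0 ∧ g y ≠ 1) ∧ (∃ a b, g a ≠ g b) ∧
      ∀ p : Y, ∃ U : Set (Fin m → ℂ), IsOpen U ∧ (p : Fin m → ℂ) ∈ U ∧
        ∃ h : (Fin m → ℂ) → ℂ, DifferentiableOn ℂ h U ∧
          ∀ y : Y, (y : Fin m → ℂ) ∈ U → h y = g y}) :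
    Q.Finite ∧ (Q.ncard : ℝ) ≤ (32 / 5) ^ r := by
  have e : ∀ (g : Y → ℂ) (y : Y), Function.extend Subtype.val g 0 (y : Fin m → ℂ) = g y :=
    fun g y => Subtype.val_injective.extend_apply g 0 y
  have key : ∀ T : Finset (Y → ℂ), (T : Set (Y → ℂ)) ⊆ Q → (T.card : ℝ) ≤ (32 / 5) ^ r := by
    intro T hT
    rw [hQ] at hT
    refine Main_count hA hS hc y0 hr T (fun g => Function.extend Subtype.val g 0)
      (fun g hg p hp => ?_) (fun g hg y hy => ?_) (fun g hg => ?_) fun g _ g' _ h => ?_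
    · obtain ⟨U, a, b, h, c, d⟩ := (hT hg).2.2 ⟨p, hp⟩
      exact ⟨U, a, b, h, c, fun y hy hU => (d ⟨y, hy⟩ hU).trans (e g ⟨y, hy⟩).symm⟩
    · rw [e g ⟨y, hy⟩]
      exact (hT hg).1 _
    · obtain ⟨a, b, h⟩ := (hT hg).2.1
      exact ⟨a, a.2, b, b.2, by rwa [e, e]⟩
    · exact funext fun y => by rw [← e g y, ← e g' y]; exact h y y.2
  have hfin : Q.Finite := by
    by_contra h
    obtain ⟨n, hn⟩ := exists_nat_gt (((32 : ℝ) / 5) ^ r)
    obtain ⟨T, h1, h2⟩ := Set.Infinite.exists_subset_card_eq h n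
    exact absurd (key T h1) (by rw [h2]; exact not_le.2 hn)
  refine ⟨hfin, ?_⟩
  rw [Set.ncard_eq_toFinset_card Q hfin]
  exact key _ (by simp)

end Pool.Agent.Lib.MP_9bd952_ag
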