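import Mathlib

namespace Pool.Agent.Lib.MP_9bd952_ag

open Set Metric Filter Topology Asymptotics unitInterval

variable {T : Type} [TopologicalSpace T]

/-- Logarithms along a path exist. -/
theorem pi1_lift (G : C(T, {z : ℂ // z ≠ 0})) {x y : T} (γ : Path x y) :
    ∃ Γ : I → ℂ, Continuous Γ ∧ ∀ s, Complex.exp (Γ s) = G (γ s) := by
  obtain ⟨Γ, h, -⟩ := Complex.isCoveringMap_exp.exists_path_lifts (γ.map G.continuous)
    (Complex.log (G x)) (Subtype.ext (by simp [Complex.exp_log (G x).2]))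
  exact ⟨Γ, Γ.continuous, fun s => congrArg Subtype.val (congrFun h s)⟩

/-- The monodromy is the translation by the increment of any logarithm. -/
theorem pi1_mono (G : C(T, {z : ℂ // z ≠ 0})) {x y : T} (γ : Path x y) {Γ : I → ℂ}
    (hΓ : Continuous Γ) (h : ∀ s, Complex.exp (Γ s) = G (γ s))
    (e : (fun z : ℂ => (⟨_, z.exp_ne_zero⟩ : {z : ℂ // z ≠ 0})) ⁻¹' {G x}) :
    (Complex.isCoveringMap_exp.monodromy ((Path.Homotopic.Quotient.mk γ).map G) e).1 =
      e.1 + (Γ 1 - Γ 0) := by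
  have he : Complex.exp e.1 = G x := congrArg Subtype.val e.2
  have h0 : Complex.exp (Γ 0) = G x := by rw [h 0, γ.source]
  have h1 := (Complex.isCoveringMap_exp.eq_liftPath_iff (γ := γ.map G.continuous) (e := e.1)
    ((γ.map G.continuous).source.trans e.2.symm) (Γ := fun s => e.1 + (Γ s - Γ 0))).2
    ⟨by fun_prop, funext fun s => Subtype.ext (by
      change Complex.exp (e.1 + (Γ s - Γ 0)) = G (γ s)
      rw [Complex.exp_add, Complex.exp_sub, he, h0, h s, mul_div_cancel₀ _ (G x).2]), by simp⟩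
  exact (congrFun h1 1).symm

/-- The winding homomorphism. -/
theorem pi1_hom (G : C(T, {z : ℂ // z ≠ 0})) (t0 : T) :
    ∃ W : Additive (FundamentalGroup T t0) →+ ℤ, ∀ (γ : Path t0 t0) (Γ : I → ℂ), Continuous Γ →
      (∀ s, Complex.exp (Γ s) = G (γ s)) →
      Γ 1 - Γ 0 = W (Additive.ofMul (FundamentalGroup.fromPath (.mk γ))) *
        (2 * Real.pi * Complex.I) := by
  let e : (fun z : ℂ => (⟨_, z.exp_ne_zero⟩ : {z : ℂ // z ≠ 0})) ⁻¹' {G t0} :=
    ⟨Complex.log (G t0), Subtype.ext (Complex.exp_log (G t0).2)⟩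
  have hw : ∀ c : Path.Homotopic.Quotient t0 t0, ∃ k : ℤ,
      (Complex.isCoveringMap_exp.monodromy (c.map G) e).1 =
        e.1 + k * (2 * Real.pi * Complex.I) := fun c =>
    Complex.exp_eq_exp_iff_exists_int.1 (congrArg Subtype.val
      ((Complex.isCoveringMap_exp.monodromy (c.map G) e).2.trans e.2.symm))
  choose w hw using hw
  have hw' : ∀ (γ : Path t0 t0) (Γ : I → ℂ), Continuous Γ → (∀ s, Complex.exp (Γ s) = G (γ s)) →
      Γ 1 - Γ 0 = w (.mk γ) * (2 * Real.pi * Complex.I) := fun γ Γ hΓ h =>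
    add_left_cancel ((pi1_mono G γ hΓ h e).symm.trans (hw _))
  have hadd : ∀ c c' : Path.Homotopic.Quotient t0 t0, w (c.trans c') = w c + w c' := by
    intro c c'
    induction c' using Path.Homotopic.Quotient.ind with | _ γ' => ?_
    obtain ⟨Γ', hΓ', h'⟩ := pi1_lift G γ'
    have h1 := hw (c.trans (.mk γ'))
    have h2 : (c.trans (.mk γ')).map G =
        (c.map G).trans ((Path.Homotopic.Quotient.mk γ').map G) := by
      induction c using Path.Homotopic.Quotient.ind with | _ γ => ?_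
      exact congrArg Path.Homotopic.Quotient.mk (Path.map_trans γ γ' G.continuous)
    rw [h2, IsCoveringMap.monodromy_trans_apply, pi1_mono G γ' hΓ' h', hw, hw' γ' Γ' hΓ' h',
      add_assoc, add_right_inj, ← add_mul, mul_left_inj' Complex.two_pi_I_ne_zero] at h1
    exact_mod_cast h1.symm
  exact ⟨AddMonoidHom.mk' (fun c => w (Additive.toMul c).toPath)
    fun a b => (hadd _ _).trans (add_comm _ _), hw'⟩

/-- A function whose logarithms along all loops are closed has a logarithm. -/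
theorem pi1_log [PathConnectedSpace T] [LocallyPathConnectedSpace T]
    (G : C(T, {z : ℂ // z ≠ 0})) (t0 : T) (h : ∀ γ : Path t0 t0, ∃ Γ : I → ℂ, Continuous Γ ∧
      (∀ s, Complex.exp (Γ s) = G (γ s)) ∧ Γ 1 = Γ 0) :
    ∃ h : T → ℂ, Continuous h ∧ ∀ t, (G t : ℂ) = Complex.exp (h t) := by
  obtain ⟨F, ⟨-, hF⟩, -⟩ := Complex.isCoveringMap_exp.existsUnique_continuousMap_lifts_of_range_le
    (f := G) (a₀ := t0) (e₀ := Complex.log (G t0)) (Subtype.ext (Complex.exp_log (G t0).2)) (by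
      rintro _ ⟨c, rfl⟩
      induction c using Path.Homotopic.Quotient.ind with | _ γ => ?_
      obtain ⟨Γ, hΓ, h1, h2⟩ := h γ
      have h0 : Complex.exp (Γ 0) = G t0 := by rw [h1 0, γ.source]
      refine ⟨FundamentalGroup.fromPath (.mk ⟨⟨fun s => Complex.log (G t0) + (Γ s - Γ 0),
        by fun_prop⟩, by simp, by simp [h2]⟩), ?_⟩
      rw [FundamentalGroup.mapOfEq_apply]
      refine congrArg Path.Homotopic.Quotient.mk (Path.ext (funext fun s => Subtype.ext ?_))
      change Complex.exp (Complex.log (G t0) + (Γ s - Γ 0)) = G (γ s)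
      rw [Complex.exp_add, Complex.exp_sub, Complex.exp_log (G t0).2, h0, h1 s,
        mul_div_cancel₀ _ (G t0).2])
  exact ⟨F, F.continuous, fun t => (congrArg Subtype.val (congrFun hF t)).symm⟩

theorem exists_rel {T : Type} [TopologicalSpace T] [PathConnectedSpace T]
    [LocallyPathConnectedSpace T] (t0 : T) {r : ℕ}
    (hr : Module.rank ℤ (Additive (FundamentalGroup T t0) →+ ℤ) ≤ r) {ι : Type} [Fintype ι]
    (hι : r < Fintype.card ι) (g : ι → T → ℂ) (hg : ∀ i, Continuous (g i))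
    (h0 : ∀ i t, g i t ≠ 0) : ∃ n : ι → ℤ, n ≠ 0 ∧ ∃ h : T → ℂ, Continuous h ∧
      ∀ t, ∏ i, g i t ^ n i = Complex.exp (h t) := by
  let G : ι → C(T, {z : ℂ // z ≠ 0}) := fun i => ⟨fun t => ⟨g i t, h0 i t⟩, (hg i).subtype_mk _⟩
  choose W hW using fun i => pi1_hom (G i) t0
  have hdep : ¬ LinearIndependent ℤ W := fun h => by
    have h1 := h.cardinal_le_rank.trans hr
    rw [Cardinal.mk_fintype, Nat.cast_le] at h1
    omega
  obtain ⟨n, hn, i, hi⟩ := Fintype.not_linearIndependent_iff.1 hdep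
  refine ⟨n, fun h => hi (congrFun h i), pi1_log ⟨fun t => ⟨∏ i, g i t ^ n i,
    Finset.prod_ne_zero_iff.2 fun i _ => zpow_ne_zero _ (h0 i t)⟩,
    (continuous_finsetProd _ fun i _ => (hg i).zpow₀ _ fun t => Or.inl (h0 i t)).subtype_mk _⟩
    t0 fun γ => ?_⟩
  choose Γ hΓ hl using fun i => pi1_lift (G i) γ
  refine ⟨fun s => ∑ i, n i * Γ i s, by fun_prop, fun s => ?_, ?_⟩
  · rw [Complex.exp_sum]
    exact Finset.prod_congr rfl fun i _ => by rw [Complex.exp_int_mul, hl i s]; rfl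
  · have h1 := DFunLike.congr_fun hn (Additive.ofMul (FundamentalGroup.fromPath (.mk γ)))
    simp only [AddMonoidHom.finsetSum_apply, AddMonoidHom.smul_apply, smul_eq_mul,
      AddMonoidHom.zero_apply] at h1
    rw [← sub_eq_zero, ← Finset.sum_sub_distrib]
    simp only [← mul_sub, fun i => hW i γ (Γ i) (hΓ i) (hl i), ← mul_assoc]
    simp only [mul_assoc _ (2 : ℂ), mul_assoc _ ((2 : ℂ) * _)]
    rw [← Finset.sum_mul]
    exact mul_eq_zero_of_left (by exact_mod_cast h1) _

end Pool.Agent.Lib.MP_9bd952_ag
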