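import Pool.Agent.Lib.MP_9bd952_ag.Defs
import Pool.Agent.Lib.MP_aa40d3_nt.GR.Puiseux

/-! Puiseux branches over a punctured disc around a finite point. -/

namespace Pool.Agent.Lib.MP_9bd952_ag

open Set Metric Filter Topology Asymptotics
open Polynomial Pool.Agent.GR

theorem puisF_fib (F : ℂ[X][X]) (a u : ℂ) :
    fib (F.map (compRingHom (X + C a))) u = fib F (a + u) := by
  rw [fib, fib, Polynomial.map_map]
  refine congrArg (Polynomial.map · F) (RingHom.ext fun p => ?_)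
  simp [eval_comp, add_comm]

theorem puisF_le (a : ℂ) {c : ℂ} (hc : c ≠ 0) {e : ℕ} (he : 0 < e) :
    𝓝[≠] a ≤ Filter.map (fun z => a + (c * z) ^ e) (𝓝[≠] 0) := by
  intro s hs
  obtain ⟨r, r0, hr⟩ := Metric.mem_nhdsWithin_iff.1 hs
  have c0 : 0 < ‖c‖ * r := mul_pos (norm_pos_iff.2 hc) r0
  refine Metric.mem_nhdsWithin_iff.2 ⟨(‖c‖ * r) ^ e, pow_pos c0 e, fun w hw => ?_⟩
  obtain ⟨y, hy⟩ := IsAlgClosed.exists_pow_nat_eq (w - a) he
  have y0 : y ≠ 0 := fun h => hw.2 (sub_eq_zero.1 (by rw [← hy, h, zero_pow he.ne']))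
  have y1 : ‖y‖ < ‖c‖ * r := by
    refine lt_of_pow_lt_pow_left₀ e c0.le ?_
    rw [← norm_pow, hy, ← dist_eq_norm]
    exact hw.1
  have h := hr (a := y / c) ⟨by
    rw [mem_ball_zero_iff, norm_div, div_lt_iff₀' (norm_pos_iff.2 hc)]
    exact y1, div_ne_zero y0 hc⟩
  rwa [mem_preimage, mul_div_cancel₀ _ hc, hy, add_sub_cancel] at h

theorem puisF_punct {G : ℂ[X]} (hG : G ≠ 0) :
    ∃ η : ℝ, 0 < η ∧ η ≤ 1 ∧ ∀ u : ℂ, u ≠ 0 → ‖u‖ < η → G.eval u ≠ 0 := by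
  have h : ∀ᶠ u in 𝓝[≠] (0 : ℂ), G.eval u ≠ 0 := by
    have h1 := (finite_setOfPred_isRoot hG).subset (sdiff_subset (t := {0}))
    filter_upwards [nhdsWithin_le_nhds (h1.isClosed.isOpen_compl.mem_nhds fun e => e.2 rfl),
      self_mem_nhdsWithin] with u hu h0 e
    exact hu ⟨e, h0⟩
  obtain ⟨r, r0, hr⟩ := Metric.mem_nhdsWithin_iff.1 h
  exact ⟨min r 1, lt_min r0 one_pos, min_le_right _ _, fun u h0 hu =>
    hr ⟨mem_ball_zero_iff.2 (hu.trans_le (min_le_left _ _)), h0⟩⟩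

theorem puis_fin (F : ℂ[X][X]) (hF : F.Monic) (δ : ℂ[X]) (hδ : δ ≠ 0)
    (hsep : ∀ u θ, δ.eval u ≠ 0 → (fib F u).eval θ = 0 → (derivative (fib F u)).eval θ ≠ 0)
    (a : ℂ) : ∃ (u : ℂ → ℂ) (θ : Fin F.natDegree → ℂ → ℂ), DifferentiableOn ℂ u PD ∧
      (∀ j, DifferentiableOn ℂ (θ j) PD) ∧
      (∀ z ∈ PD, δ.eval (u z) ≠ 0 ∧ fib F (u z) = ∏ j, (X - C (θ j z))) ∧
      𝓝[≠] a ≤ Filter.map u (𝓝[≠] 0) := by
  have h0 : δ.comp (X + C a) ≠ 0 := mt comp_X_add_C_eq_zero_iff.1 hδ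
  have h1 : ∀ u, (δ.comp (X + C a)).eval u = δ.eval (a + u) := fun u => by
    simp [eval_comp, add_comm]
  have h2 := exists_puiseux (F.map (compRingHom (X + C a))) (hF.map _) _ h0
    (fun u θ => by rw [h1, puisF_fib]; exact hsep _ θ) (Nat.factorial_pos _) dvd_rfl
  rw [hF.natDegree_map] at h2
  obtain ⟨ε, ε0, θ, θ1, θ2⟩ := h2
  obtain ⟨η, η0, η1, η2⟩ := puisF_punct h0
  obtain ⟨r, r0, hr⟩ := Metric.eventually_nhds_iff.1
    (eventually_all.2 fun j => (θ1 j).eventually_analyticAt)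
  obtain ⟨c, c0, c1, c2, c3⟩ : ∃ c : ℝ, 0 < c ∧ c ≤ ε ∧ c ≤ η ∧ c ≤ r :=
    ⟨min ε (min η r), lt_min ε0 (lt_min η0 r0), min_le_left _ _,
      (min_le_right _ _).trans (min_le_left _ _), (min_le_right _ _).trans (min_le_right _ _)⟩
  have c4 : (c : ℂ) ≠ 0 := Complex.ofReal_ne_zero.2 c0.ne'
  have n : ∀ z ∈ PD, ‖(c : ℂ) * z‖ < c ∧ (c : ℂ) * z ≠ 0 := fun z hz => by
    refine ⟨?_, mul_ne_zero c4 (mem_PD.1 hz).2⟩
    rw [norm_mul, Complex.norm_real, Real.norm_of_nonneg c0.le]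
    exact mul_lt_of_lt_one_right c0 (mem_PD.1 hz).1
  refine ⟨fun z => a + (c * z) ^ F.natDegree.factorial, fun j z => θ j (c * z), by fun_prop,
    fun j z hz => ?_, fun z hz => ⟨?_, ?_⟩, puisF_le a c4 (Nat.factorial_pos _)⟩
  · exact ((hr (y := c * z) (by simpa using (n z hz).1.trans_le c3) j).differentiableAt.comp z
      (by fun_prop)).differentiableWithinAt
  · rw [← h1]
    refine η2 _ (pow_ne_zero _ (n z hz).2) ?_
    rw [norm_pow]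
    exact (pow_le_of_le_one (norm_nonneg _) ((n z hz).1.le.trans (c2.trans η1))
      (Nat.factorial_ne_zero _)).trans_lt ((n z hz).1.trans_le c2)
  · rw [← puisF_fib]
    exact θ2 _ (mem_ball_zero_iff.2 ((n z hz).1.trans_le c1)) (n z hz).2

end Pool.Agent.Lib.MP_9bd952_ag
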