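import Pool.Agent.Lib.MP_9bd952_ag.Loc

namespace Pool.Agent.Lib.MP_9bd952_ag

open Set Metric Filter Topology Asymptotics

/-- A function with a continuous logarithm on the punctured disc has order zero. -/
theorem ord_exp {f h : ℂ → ℂ} (hf : Mer f) (hh : ContinuousOn h PD)
    (e : ∀ z ∈ PD, f z = Complex.exp (h z)) : ord f = 0 := by
  obtain ⟨u, hu, hu0, he⟩ := hf.exists_eq
  have h1 : ∀ᶠ z in 𝓝 (0 : ℂ), ContinuousAt u z ∧ u z / u 0 ∈ Complex.slitPlane := by
    refine (hu.eventually_analyticAt.mono fun z hz => hz.continuousAt).and ?_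
    refine (hu.continuousAt.div_const (u 0)).eventually (Complex.isOpen_slitPlane.mem_nhds ?_)
    simp [hu0]
  obtain ⟨ε, hε, hb⟩ := Metric.eventually_nhds_iff.1
    (h1.and (eventually_nhdsWithin_iff.1 (he.and PD_mem)))
  let c : ℝ → ℂ := fun t => (ε / 2 : ℝ) * Complex.exp (t * Complex.I)
  have hc : Continuous c := by fun_prop
  have hn : ∀ t, ‖c t‖ = ε / 2 := fun t => by
    simp [c, Complex.norm_exp_ofReal_mul_I, abs_of_pos hε]
  have hd := fun t => hb (y := c t) (by rw [dist_zero_right, hn]; linarith)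
  have h0 : ∀ t, c t ≠ 0 := fun t e => by have := hn t; rw [e, norm_zero] at this; linarith
  let G : ℝ → ℂ := fun t => h (c t) - Complex.log (u (c t) / u 0) - Complex.log (u 0) -
    ord f * (Real.log (ε / 2) + t * Complex.I)
  have hG : Continuous G := by
    refine ((((hh.comp_continuous hc fun t => ((hd t).2 (h0 t)).2).sub ?_).sub
      continuous_const).sub (by fun_prop))
    exact continuous_iff_continuousAt.2 fun t =>
      (((hd t).1.1.comp hc.continuousAt).div_const _).clog (hd t).1.2
  have hE : ∀ t, Complex.exp (G t) = 1 := fun t => by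
    have a := ((hd t).2 (h0 t))
    have b : u (c t) / u 0 ≠ 0 := Complex.slitPlane_ne_zero (hd t).1.2
    have b' : u (c t) ≠ 0 := fun e => b (by simp [e])
    have k : Complex.exp (Real.log (ε / 2) + t * Complex.I) = c t := by
      rw [Complex.exp_add, ← Complex.ofReal_exp, Real.exp_log (by linarith)]
    simp only [G, Complex.exp_sub, Complex.exp_log b, Complex.exp_log hu0, Complex.exp_int_mul, k,
      ← e _ a.2, a.1]
    have := zpow_ne_zero (ord f) (h0 t)
    field_simp
  have hK : G 0 = G (2 * Real.pi) := by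
    refine (countable_range fun n : ℤ => (n : ℂ) * (2 * Real.pi * Complex.I)).isTotallyDisconnected
      (range G) ?_ (isPreconnected_range hG) ⟨_, rfl⟩ ⟨_, rfl⟩
    rintro _ ⟨t, rfl⟩
    obtain ⟨n, hn⟩ := Complex.exp_eq_one_iff.1 (hE t)
    exact ⟨n, hn.symm⟩
  have hcc : c (2 * Real.pi) = c 0 := by simp [c]
  simp only [G, hcc] at hK
  have : (ord f : ℂ) * (2 * Real.pi * Complex.I) = 0 := by push_cast at hK; linear_combination hK
  exact_mod_cast (mul_eq_zero.1 this).resolve_right Complex.two_pi_I_ne_zero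

end Pool.Agent.Lib.MP_9bd952_ag
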