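import Pool.Agent.Lib.MP_9bd952_ag.Unit
import Pool.Agent.Lib.MP_9bd952_ag.Wind
import Pool.Agent.Lib.MP_9bd952_ag.Pi1

namespace Pool.Agent.Lib.MP_9bd952_ag

open Set Metric Filter Topology Asymptotics

/-- More than `r` units satisfy a linear relation between their local data. -/
theorem Rank_rel {m : ℕ} {Y : Set (Fin m → ℂ)} (hA : Alg Y) (hS : Smooth Y) (hc : IsConnected Y)
    (y0 : Y) {r : ℕ} (hr : Module.rank ℤ (Additive (FundamentalGroup Y y0) →+ ℤ) ≤ r)
    {ι : Type} [Fintype ι] (hι : r < Fintype.card ι) (g : ι → (Fin m → ℂ) → ℂ)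
    (hg : ∀ i, Un Y (g i)) : ∃ n : ι → ℤ, n ≠ 0 ∧ ∑ i, (n i : ℚ) • Phi Y (g i) = 0 := by
  have : LocallyPathConnectedSpace Y := locPath hS
  have : ConnectedSpace Y := isConnected_iff_connectedSpace.1 hc
  have : PathConnectedSpace Y := pathConnectedSpace_iff_connectedSpace.2 inferInstance
  obtain ⟨n, hn, h, hh, e⟩ := exists_rel y0 hr hι (fun i (y : Y) => g i y)
    (fun i => (hg i).hol.continuousOn.domRestrict) fun i y => (hg i).ne y y.2
  obtain ⟨hu, hp⟩ := Un.prod (Y := Y) Finset.univ (fun i _ => hg i) n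
  refine ⟨n, hn, ?_⟩
  rw [← hp]
  refine (hu.const hA hS hc ?_).2
  funext γ
  classical
  have hk : ContinuousOn (fun z => if hz : z ∈ PD then h ⟨γ.1 z, γ.2.2 hz⟩ else 0) PD := by
    rw [continuousOn_iff_continuous_domRestrict]
    have e1 : PD.domRestrict (fun z => if hz : z ∈ PD then h ⟨γ.1 z, γ.2.2 hz⟩ else 0) =
        fun z : PD => h ⟨γ.1 z, γ.2.2 z.2⟩ := by
      funext z
      exact dif_pos z.2
    rw [e1]
    exact hh.comp (γ.2.1.continuousOn.domRestrict.subtype_mk _)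
  have ho := ord_exp (hu.mer' γ.2) hk fun z hz => by
    rw [dif_pos hz, ← e ⟨γ.1 z, γ.2.2 hz⟩]
    simp only [Function.comp_apply, Finset.prod_apply, Pi.pow_apply]
  show ((ord ((∏ i, g i ^ n i) ∘ γ.1) : ℤ) : ℚ) = 0
  rw [ho, Int.cast_zero]

theorem rank_Vsp {m : ℕ} {Y : Set (Fin m → ℂ)} (hA : Alg Y) (hS : Smooth Y) (hc : IsConnected Y)
    (y0 : Y) {r : ℕ} (hr : Module.rank ℤ (Additive (FundamentalGroup Y y0) →+ ℤ) ≤ r) :
    Module.rank ℚ (Vsp Y) ≤ r := by
  refine rank_le fun s hs => ?_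
  by_contra hlt
  have hι : r < Fintype.card s := by
    rw [Fintype.card_coe]
    exact not_le.1 hlt
  choose N hN g hg hP using fun i : s => exists_scale (i : Vsp Y).2
  obtain ⟨n, hn, e⟩ := Rank_rel hA hS hc y0 hr hι g hg
  have e1 : ∑ i : s, ((n i : ℚ) * (N i : ℚ)) • (i : Vsp Y) = 0 := by
    apply Subtype.ext
    rw [Submodule.coe_sum, Submodule.coe_zero, ← e]
    refine Finset.sum_congr rfl fun i _ => ?_
    rw [hP i, Submodule.coe_smul, mul_smul]
  have e2 := Fintype.linearIndependent_iff.1 hs _ e1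
  refine hn (funext fun i => ?_)
  have h1 : (N i : ℚ) ≠ 0 := Nat.cast_ne_zero.2 (hN i)
  have h2 : (n i : ℚ) = 0 := (mul_eq_zero.1 (e2 i)).resolve_right h1
  exact_mod_cast h2

end Pool.Agent.Lib.MP_9bd952_ag
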