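import Pool.Agent.Lib.MP_9bd952_ag.Liou
import Pool.Agent.Lib.MP_9bd952_ag.Loc

namespace Pool.Agent.Lib.MP_9bd952_ag

open Set Metric Filter Topology Asymptotics

variable {m : ℕ} {Y : Set (Fin m → ℂ)} {f g : (Fin m → ℂ) → ℂ}

theorem Un.mul (hf : Un Y f) (hg : Un Y g) : Un Y (f * g) ∧ Phi Y (f * g) = Phi Y f + Phi Y g := by
  refine ⟨⟨hf.hol.mul hg.hol, fun y hy => mul_ne_zero (hf.ne y hy) (hg.ne y hy),
    fun γ hγ => ((hf.mer' hγ).mul (hg.mer' hγ)).1.mer⟩, Prod.ext ?_ ?_⟩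
  · exact funext fun γ => ((hf.mer' γ.2).mul (hg.mer' γ.2)).2.2
  · refine funext fun γ => ?_
    have h := ((hf.mer' γ.2).mul (hg.mer' γ.2)).2.1
    change ((ord (f ∘ γ.1 * g ∘ γ.1) : ℤ) : ℚ) = (ord (f ∘ γ.1) : ℚ) + (ord (g ∘ γ.1) : ℚ)
    rw [h, Int.cast_add]

theorem unit_inv (hf : Un Y f) : Un Y f⁻¹ ∧ Phi Y f⁻¹ = -Phi Y f := by
  refine ⟨⟨hf.hol.inv hf.ne, fun y hy => inv_ne_zero (hf.ne y hy),
    fun γ hγ => (hf.mer' hγ).inv.1.mer⟩, Prod.ext ?_ ?_⟩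
  · exact funext fun γ => (hf.mer' γ.2).inv.2.2
  · refine funext fun γ => ?_
    have h := (hf.mer' γ.2).inv.2.1
    change ((ord (f ∘ γ.1)⁻¹ : ℤ) : ℚ) = -(ord (f ∘ γ.1) : ℚ)
    rw [h, Int.cast_neg]

theorem unit_const {c : ℂ} (hc : c ≠ 0) (h : ∀ y ∈ Y, g y = c) : Un Y g ∧ Phi Y g = 0 := by
  have k : ∀ γ, Disc Y γ → Mer (g ∘ γ) ∧ ord (g ∘ γ) = 0 ∧ ld (g ∘ γ) = 0 :=
    fun γ hγ => mer_const hc fun z hz => h _ (hγ.2 hz)
  refine ⟨⟨(hol_const c).congr fun y hy => (h y hy).symm, fun y hy => (h y hy).symm ▸ hc,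
    fun γ hγ => (k γ hγ).1.mer⟩, Prod.ext (funext fun γ => (k γ.1 γ.2).2.2) ?_⟩
  refine funext fun γ => ?_
  change ((ord (g ∘ γ.1) : ℤ) : ℚ) = 0
  rw [(k γ.1 γ.2).2.1, Int.cast_zero]

theorem unit_one : Un Y 1 ∧ Phi Y 1 = 0 := unit_const one_ne_zero fun _ _ => rfl

theorem unit_pow (hf : Un Y f) (n : ℕ) : Un Y (f ^ n) ∧ Phi Y (f ^ n) = (n : ℚ) • Phi Y f := by
  induction n with
  | zero => simpa using unit_one
  | succ n ih =>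
    rw [pow_succ]
    refine ⟨(ih.1.mul hf).1, ?_⟩
    rw [(ih.1.mul hf).2, ih.2, Nat.cast_succ, add_smul, one_smul]

theorem unit_zpow (hf : Un Y f) (n : ℤ) : Un Y (f ^ n) ∧ Phi Y (f ^ n) = (n : ℚ) • Phi Y f := by
  obtain ⟨k, rfl | rfl⟩ := n.eq_nat_or_neg
  · rw [zpow_natCast, Int.cast_natCast]
    exact unit_pow hf k
  · rw [zpow_neg, zpow_natCast, Int.cast_neg, Int.cast_natCast, neg_smul, ← (unit_pow hf k).2]
    exact unit_inv (unit_pow hf k).1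

theorem Un.prod {ι : Type} (s : Finset ι) {g : ι → (Fin m → ℂ) → ℂ} (hg : ∀ i ∈ s, Un Y (g i))
    (n : ι → ℤ) : Un Y (∏ i ∈ s, g i ^ n i) ∧
      Phi Y (∏ i ∈ s, g i ^ n i) = ∑ i ∈ s, (n i : ℚ) • Phi Y (g i) := by
  classical
  induction s using Finset.induction_on with
  | empty => simpa using unit_one
  | insert a s ha ih =>
    obtain ⟨h1, h2⟩ := ih fun i hi => hg i (Finset.mem_insert_of_mem hi)
    obtain ⟨h3, h4⟩ := unit_zpow (hg a (Finset.mem_insert_self a s)) (n a)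
    rw [Finset.prod_insert ha, Finset.sum_insert ha, ← h2, ← h4]
    exact h3.mul h1

theorem exists_scale {v : Wsp Y} (hv : v ∈ Vsp Y) :
    ∃ N : ℕ, N ≠ 0 ∧ ∃ g, Un Y g ∧ Phi Y g = (N : ℚ) • v := by
  induction hv using Submodule.span_induction with
  | mem v hv =>
    obtain ⟨g, hg, rfl⟩ := hv
    exact ⟨1, one_ne_zero, g, hg, by simp⟩
  | zero => exact ⟨1, one_ne_zero, 1, unit_one.1, by simp [unit_one.2]⟩
  | add u v _ _ hu hv =>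
    obtain ⟨N, hN, f, hf, e⟩ := hu
    obtain ⟨M, hM, g, hg, e'⟩ := hv
    obtain ⟨h1, h2⟩ := (unit_pow hf M).1.mul (unit_pow hg N).1
    refine ⟨N * M, mul_ne_zero hN hM, _, h1, ?_⟩
    rw [h2, (unit_pow hf M).2, (unit_pow hg N).2, e, e', smul_smul, smul_smul, smul_add,
      Nat.cast_mul, mul_comm (M : ℚ)]
  | smul q v _ hv =>
    obtain ⟨N, hN, f, hf, e⟩ := hv
    refine ⟨N * q.den, mul_ne_zero hN q.den_nz, _, (unit_zpow hf q.num).1, ?_⟩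
    rw [(unit_zpow hf q.num).2, e, smul_smul, smul_smul, Nat.cast_mul, mul_assoc,
      Rat.den_mul_eq_num, mul_comm]

theorem Un.const (hA : Alg Y) (hS : Smooth Y) (hc : IsConnected Y) (hg : Un Y g)
    (h : (Phi Y g).2 = 0) : (∀ y ∈ Y, ∀ y' ∈ Y, g y = g y') ∧ Phi Y g = 0 := by
  have k := liouville hA hS hc hg.hol fun γ hγ => (hg.mer' hγ).bdd (by
    have e : ((ord (g ∘ γ) : ℤ) : ℚ) = 0 := congrFun h ⟨γ, hγ⟩
    exact_mod_cast e)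
  obtain ⟨y0, hy0⟩ := hc.nonempty
  exact ⟨k, (unit_const (hg.ne y0 hy0) fun y hy => k y hy y0 hy0).2⟩

theorem Vsp_inj (hA : Alg Y) (hS : Smooth Y) (hc : IsConnected Y) {v : Wsp Y} (hv : v ∈ Vsp Y)
    (h : v.2 = 0) : v = 0 := by
  obtain ⟨N, hN, g, hg, e⟩ := exists_scale hv
  have k := (hg.const hA hS hc (by rw [e, Prod.smul_snd, h, smul_zero])).2
  rw [e] at k
  exact (smul_eq_zero.1 k).resolve_left (Nat.cast_ne_zero.2 hN)

theorem Un.ratio (hA : Alg Y) (hS : Smooth Y) (hc : IsConnected Y) (hf : Un Y f) (hg : Un Y g)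
    (h : Phi Y f = Phi Y g) : ∃ c : ℂ, ∀ y ∈ Y, f y = c * g y := by
  obtain ⟨h1, h2⟩ := hf.mul (unit_inv hg).1
  have k := (h1.const hA hS hc (by rw [h2, (unit_inv hg).2, h, add_neg_cancel]; rfl)).1
  obtain ⟨y0, hy0⟩ := hc.nonempty
  refine ⟨(f * g⁻¹) y0, fun y hy => ?_⟩
  rw [← k y hy y0 hy0, Pi.mul_apply, Pi.inv_apply, inv_mul_cancel_right₀ (hg.ne y hy)]

end Pool.Agent.Lib.MP_9bd952_ag
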